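import Pool.Agent.L0h17.DN.Form

/-!
The order of the form given by the discriminant and the norm.
-/

set_option autoImplicit false
set_option linter.overlappingInstances false
set_option linter.unusedSectionVars false

open FF Polynomial Pool.Agent.W602.GT Pool.Agent.W603.LV Pool.Agent.W619.PQ Pool.Agent.Y172

namespace Pool.Agent.L0h17.DN

section

variable {k K : Type} [Field k] [CharZero k] [Field K] [Algebra k K] {n : ℕ}

theorem pluri_smul {m : ℕ} {W : (Fin n → Derivation k K K) → K} (hW : IsPluri m W) (c : K) :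
    IsPluri m (fun D => c * W D) := by
  intro A D
  change c * W _ = A.det ^ m * (c * W D)
  rw [hW]
  ring

theorem pluri_add {m : ℕ} {W W' : (Fin n → Derivation k K K) → K} (hW : IsPluri m W)
    (hW' : IsPluri m W') : IsPluri m (fun D => W D + W' D) := by
  intro A D
  change W _ + W' _ = A.det ^ m * (W D + W' D)
  rw [hW, hW']
  ring

end

section

variable {k L M K : Type} [Field k] [CharZero k] [Field L] [Field M] [Field K] [Algebra k L]
  [Algebra k M] [Algebra k K] [Algebra L M] [Algebra M K] [Algebra L K] [IsScalarTower L M K]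
  [IsScalarTower k L M] [IsScalarTower k M K] [IsScalarTower k L K] [FiniteDimensional L M]
  [FiniteDimensional M K] [FiniteDimensional L K] [Algebra.EssFiniteType k L]
  [Algebra.EssFiniteType k K] {n : ℕ}

/-- **The main estimate.** -/
theorem down_order (hn : Algebra.trdeg k L = n) {ι : Type} [Fintype ι] [DecidableEq ι]
    (a : Module.Basis ι L M) {m : ℕ} {W : (Fin n → Derivation k K K) → K} (hW : IsPluri m W)
    {P : Place k L} (hP : Divisorial n P) {δ : ℚ}
    (h : ∀ (Q : Place k K) (P' : Place k M) (e₁ e₂ : ℕ), Over Q P' e₁ → Over P' P e₂ → ∀ i,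
      OrdAt Q (m * ((e₁ : ℚ) - 1) - m * (e₁ * e₂) * δ)
        (fun D => algebraMap M K (a i) ^ (2 * m) * W D)) :
    OrdAt P (-(m * Module.finrank L K) * δ)
      (nform hn (Algebra.discr L a ^ (m * Module.finrank M K)) W) := by
  classical
  have hnK : Algebra.trdeg k K = n := trdeg_up (K := L) hn
  obtain ⟨y, E, i0, hl⟩ := exists_loc hn hP
  refine ordAt_of_loc hl (nform_pluri hn _ hW) ?_
  obtain ⟨v, hv⟩ : ∃ v : K, v = W fun i => lft (K := K) hn (E i) := ⟨_, rfl⟩
  -- the values on the lifted frame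
  have h1 : ∀ (Q : Place k K) (P' : Place k M) (e₁ e₂ : ℕ), Over Q P' e₁ → Over P' P e₂ → ∀ i,
      GeQ Q (m * e₁ * (1 - e₂) - m * (e₁ * e₂) * δ) (algebraMap M K (a i) ^ (2 * m) * v) := by
    intro Q P' e₁ e₂ hQ hP' i
    have hover : Over Q P (e₁ * e₂) := by
      refine ⟨Nat.mul_pos hQ.1 hP'.1, fun f => ?_⟩
      rw [IsScalarTower.algebraMap_apply L M K, hQ.2, hP'.2]
      push_cast
      ring
    have h2 := down_ge hnK hover (divisorial_up hover hP) hl
      (E' := fun i => lft (K := K) hn (E i)) (fun i f => lft_apply hn (E i) f)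
      (pluri_smul hW (algebraMap M K (a i) ^ (2 * m)))
      (c := ((m * ((e₁ : ℚ) - 1) - m * (e₁ * e₂) * δ : ℚ) : ℝ)) (fun G hG => by
        rcases h Q P' e₁ e₂ hQ hP' i G hG with h3 | h3
        · exact Or.inl h3
        · right
          have h4 : (((m * ((e₁ : ℚ) - 1) - m * (e₁ * e₂) * δ : ℚ)) : ℝ) ≤
              ((Q.ord (algebraMap M K (a i) ^ (2 * m) * W G) : ℚ) : ℝ) := by exact_mod_cast h3
          rw [Rat.cast_intCast] at h4
          exact h4)
    rcases h2 with h2 | h2
    · left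
      rw [hv]
      exact h2
    · right
      rw [hv]
      have h3 : (((m * e₁ * (1 - e₂) - m * (e₁ * e₂) * δ : ℚ)) : ℝ) ≤
          ((Q.ord (algebraMap M K (a i) ^ (2 * m) * W fun i => lft (K := K) hn (E i)) : ℤ) : ℝ) := by
        refine le_trans (le_of_eq ?_) h2
        push_cast
        ring
      have h4 : (((m * e₁ * (1 - e₂) - m * (e₁ * e₂) * δ : ℚ)) : ℝ) ≤
          (((Q.ord (algebraMap M K (a i) ^ (2 * m) *
            W fun i => lft (K := K) hn (E i)) : ℤ) : ℚ) : ℝ) := by
        rw [Rat.cast_intCast]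
        exact h3
      exact_mod_cast h4
  -- denominators
  obtain ⟨r, hr⟩ : ∃ r : ℕ, r = ((m : ℚ) * δ).den := ⟨_, rfl⟩
  obtain ⟨z, hz⟩ : ∃ z : ℤ, z = ((m : ℚ) * δ).num := ⟨_, rfl⟩
  have hr0 : 0 < r := hr ▸ ((m : ℚ) * δ).den_pos
  have hrz : (r : ℚ) * (m * δ) = z := by
    rw [hr, hz]
    have := Rat.num_div_den ((m : ℚ) * δ)
    have h5 : ((((m : ℚ) * δ).den : ℕ) : ℚ) ≠ 0 := by exact_mod_cast ((m : ℚ) * δ).den_ne_zero
    rw [div_eq_iff h5] at this
    rw [mul_comm]
    exact this.symm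
  obtain ⟨f, hf⟩ : ∃ f : ℕ, f = Module.finrank M K := ⟨_, rfl⟩
  have h2 : ∀ (P' : Place k M) (e₂ : ℕ), Over P' P e₂ → ∀ i,
      Ge P' ((m * r * f : ℕ) * (1 - e₂) - e₂ * (f * z))
        (a i ^ (2 * (m * r * f)) * Algebra.norm M (v ^ r)) := by
    intro P' e₂ hP' i
    have h3 := norm_ge P' ((algebraMap M K (a i) ^ (2 * m) * v) ^ r) (r * m * (1 - e₂) - e₂ * z)
      fun Q e₁ hQ => by
        have h4 := (h1 Q P' e₁ e₂ hQ hP' i).pow r
        have h5 : (r : ℚ) * (m * e₁ * (1 - e₂) - m * (e₁ * e₂) * δ) =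
            ((e₁ * (r * m * (1 - e₂) - e₂ * z) : ℤ) : ℚ) := by
          push_cast
          rw [← hrz]
          ring
        rw [h5] at h4
        exact geQ_int.1 h4
    have h6 : Algebra.norm M ((algebraMap M K (a i) ^ (2 * m) * v) ^ r) =
        a i ^ (2 * (m * r * f)) * Algebra.norm M (v ^ r) := by
      rw [mul_pow, map_mul, ← pow_mul, ← map_pow, Algebra.norm_algebraMap, ← hf, ← pow_mul]
      congr 2
      ring
    rw [h6, ← hf] at h3
    refine h3.mono (le_of_eq ?_)
    push_cast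
    ring
  have h3 := loc_disc P a (m * r * f) (f * z) (Algebra.norm M (v ^ r)) h2
  rw [Algebra.norm_norm] at h3
  have h4 : Algebra.discr L a ^ (m * r * f) * Algebra.norm L (v ^ r) =
      (Algebra.discr L a ^ (m * f) * Algebra.norm L v) ^ r := by
    rw [mul_pow, ← pow_mul, map_pow]
    congr 2
    ring
  rw [h4] at h3
  have h5 := geQ_int.2 h3
  unfold nform
  rw [← hv, ← hf]
  refine geQ_of_pow hr0 (h5.mono (le_of_eq ?_))
  have h6 : (Module.finrank L K : ℚ) = Module.finrank L M * f := by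
    rw [hf]
    exact_mod_cast (Module.finrank_mul_finrank L M K).symm
  rw [h6]
  push_cast
  rw [← hrz]
  ring

end

end Pool.Agent.L0h17.DN
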