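import Pool.Agent.Y190.BV.Core

/-!
Algebraically independent norms, and finitely many algebraically independent elements of a set.
-/

set_option autoImplicit false
set_option linter.overlappingInstances false
set_option linter.unusedSectionVars false

open Cardinal

namespace Pool.Agent.L0h17.DN

section

variable {k L : Type} [Field k] [Field L] [Algebra k L]

/-- if algebraically independent elements of an extension are algebraic over `k(S)` then `S` has as
many algebraically independent elements -/
theorem exists_indep {K : Type} [Field K] [Algebra k K] [Algebra L K] [IsScalarTower k L K]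
    {h : ℕ} (S : Set L) (f : Fin h → K) (hf : AlgebraicIndependent k f)
    (halg : ∀ i, IsAlgebraic (IntermediateField.adjoin k S) (f i)) :
    ∃ b : Fin h → L, (∀ j, b j ∈ S) ∧ AlgebraicIndependent k b := by
  classical
  let F0 := IntermediateField.adjoin k S
  let F1 : IntermediateField F0 K := algebraicClosure F0 K
  have h3 : Algebra.IsAlgebraic F0 F1 := algebraicClosure.isAlgebraic F0 K
  let s : Set F0 := {x | (x : L) ∈ S}
  have hs : IntermediateField.adjoin k s = ⊤ := by
    rw [eq_top_iff]
    have h1 : (IntermediateField.adjoin k s).map F0.val = F0 := by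
      rw [IntermediateField.adjoin_map]
      congr 1
      ext x
      constructor
      · rintro ⟨y, hy, rfl⟩
        exact hy
      · intro hx
        exact ⟨⟨x, IntermediateField.subset_adjoin k S hx⟩, hx, rfl⟩
    intro x _
    have h2 : (x : L) ∈ (IntermediateField.adjoin k s).map F0.val := by
      rw [h1]
      exact x.2
    obtain ⟨y, hy, hyx⟩ := h2
    have h4 : y = x := Subtype.ext hyx
    exact h4 ▸ hy
  have h6 : Algebra.IsAlgebraic (Algebra.adjoin k s) F0 := by
    rw [← IntermediateField.isAlgebraic_adjoin_iff_top, hs]
    exact ⟨fun x => isAlgebraic_algebraMap (⟨x, trivial⟩ : (⊤ : IntermediateField k F0))⟩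
  obtain ⟨u, hu2, hu3⟩ := exists_isTranscendenceBasis_subset (R := k) s
  have htr : Algebra.trdeg k F1 = Algebra.trdeg k F0 := Pool.Agent.Y190.BV.trdeg_ext
  have h7 : #u = Algebra.trdeg k F0 := hu3.cardinalMk_eq_trdeg
  obtain ⟨g, hg⟩ : ∃ g : Fin h → F1, ∀ i, ((g i : F1) : K) = f i :=
    ⟨fun i => ⟨f i, mem_algebraicClosure_iff.2 (halg i)⟩, fun i => rfl⟩
  have hst : IsScalarTower k F1 K := IsScalarTower.of_algebraMap_eq fun c => rfl
  have hgind : AlgebraicIndependent k g := by
    refine AlgebraicIndependent.of_comp (IsScalarTower.toAlgHom k F1 K) ?_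
    have h11 : (IsScalarTower.toAlgHom k F1 K) ∘ g = f := funext hg
    rw [h11]
    exact hf
  have h8 := hgind.lift_cardinalMk_le_trdeg
  rw [htr, ← h7] at h8
  have h9 : #(Fin h) ≤ #u := by simpa using h8
  obtain ⟨e⟩ := Cardinal.le_def _ _ |>.1 h9
  refine ⟨fun i => ((e i : F0) : L), fun i => hu2 (e i).2, ?_⟩
  have h10 : AlgebraicIndependent k (fun i => ((e i : u) : F0)) := hu3.1.comp _ e.injective
  exact h10.map' (f := F0.val) F0.val.injective

/-- norms of translates of algebraically independent elements are algebraically independent -/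
theorem norm_indep {K : Type} [Field K] [Algebra k K] [Algebra L K] [IsScalarTower k L K]
    [FiniteDimensional L K] [Infinite k] {h : ℕ} (f : Fin h → K) (hf : AlgebraicIndependent k f) :
    ∃ (i : Fin h → Fin h) (y : Fin h → k), AlgebraicIndependent k
      (fun j => Algebra.norm L (f (i j) - algebraMap k K (y j))) := by
  let S : Set L := Set.range fun p : Fin h × k => Algebra.norm L (f p.1 - algebraMap k K p.2)
  obtain ⟨b, hb, hbi⟩ := exists_indep S f hf fun i =>
    Pool.Agent.Y190.BV.alg_norms (IntermediateField.adjoin k S) (f i) fun y =>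
      IntermediateField.subset_adjoin k S ⟨(i, y), rfl⟩
  choose p hp using hb
  refine ⟨fun j => (p j).1, fun j => (p j).2, ?_⟩
  have : b = fun j => Algebra.norm L (f (p j).1 - algebraMap k K (p j).2) := by
    funext j
    exact (hp j).symm
  rw [← this]
  exact hbi

end

end Pool.Agent.L0h17.DN
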