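import Pool.Agent.L0h17.DN.Loc
import Pool.Agent.L0h17.DN.Ind

/-!
Norms of pluricanonical forms.
-/

set_option autoImplicit false
set_option linter.overlappingInstances false
set_option linter.unusedSectionVars false

open FF Polynomial Pool.Agent.W602.GT Pool.Agent.W603.LV Pool.Agent.W619.PQ Pool.Agent.Y172

namespace Pool.Agent.L0h17.DN

section

variable {k L K : Type} [Field k] [CharZero k] [Field L] [Field K] [Algebra k L] [Algebra k K]
  [Algebra L K] [IsScalarTower k L K] [FiniteDimensional L K] {n : ℕ}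

/-- lifts are unique -/
theorem lift_unique (hn : Algebra.trdeg k L = n) {D : Derivation k L L} {D₁ D₂ : Derivation k K K}
    (h₁ : ∀ f : L, D₁ (algebraMap L K f) = algebraMap L K (D f))
    (h₂ : ∀ f : L, D₂ (algebraMap L K f) = algebraMap L K (D f)) : D₁ = D₂ := by
  obtain ⟨D', -, h, -⟩ := Pool.Agent.W357.PG.main.{0, 0} k L K n hn D
  rw [h D₁ h₁, h D₂ h₂]

/-- the lift of a vector field -/
noncomputable def lft (hn : Algebra.trdeg k L = n) (D : Derivation k L L) : Derivation k K K :=
  (exists_lift (L := K) hn D).choose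

theorem lft_apply (hn : Algebra.trdeg k L = n) (D : Derivation k L L) (f : L) :
    lft (K := K) hn D (algebraMap L K f) = algebraMap L K (D f) :=
  (exists_lift (L := K) hn D).choose_spec f

theorem sum_smul {M : Type} [Field M] [Algebra k M] (c : Fin n → M)
    (D : Fin n → Derivation k M M) (x : M) :
    (∑ j, c j • D j : Derivation k M M) x = ∑ j, c j * D j x :=
  Pool.Agent.Y190.BV.sum_smul_der c D x

theorem lft_sum (hn : Algebra.trdeg k L = n) (A : Matrix (Fin n) (Fin n) L)
    (D : Fin n → Derivation k L L) (i : Fin n) :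
    lft (K := K) hn (∑ j, A i j • D j) =
      ∑ j, (A.map (algebraMap L K)) i j • lft (K := K) hn (D j) := by
  refine lift_unique hn (fun f => lft_apply hn _ f) fun f => ?_
  rw [sum_smul, sum_smul, map_sum]
  refine Finset.sum_congr rfl fun j _ => ?_
  rw [lft_apply, map_mul]
  rfl

/-- the norm of a form, multiplied by `c` -/
noncomputable def nform (hn : Algebra.trdeg k L = n) (c : L) (W : (Fin n → Derivation k K K) → K)
    (D : Fin n → Derivation k L L) : L :=
  c * Algebra.norm L (W fun i => lft (K := K) hn (D i))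

theorem nform_pluri (hn : Algebra.trdeg k L = n) (c : L) {m : ℕ}
    {W : (Fin n → Derivation k K K) → K} (hW : IsPluri m W) :
    IsPluri (m * Module.finrank L K) (nform hn c W) := by
  intro A D
  have h1 : (fun i => lft (K := K) hn (∑ j, A i j • D j)) =
      fun i => ∑ j, (A.map (algebraMap L K)) i j • lft (K := K) hn (D j) :=
    funext fun i => lft_sum hn A D i
  unfold nform
  have h2 : (A.map (algebraMap L K)).det = algebraMap L K A.det := by
    rw [← RingHom.mapMatrix_apply, ← RingHom.map_det]
  rw [h1, hW, h2, map_mul, ← map_pow, Algebra.norm_algebraMap, ← pow_mul]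
  ring

end

section

variable {k L K : Type} [Field k] [CharZero k] [Field L] [Field K] [Algebra k L] [Algebra k K]
  [Algebra L K] [IsScalarTower k L K] [FiniteDimensional L K] {n : ℕ}

/-- the order of `f` is at least the rational number `c` -/
def GeQ (P : Place k K) (c : ℚ) (f : K) : Prop := f = 0 ∨ c ≤ P.ord f

theorem GeQ.mono {P : Place k K} {c c' : ℚ} {f : K} (h : c' ≤ c) (hf : GeQ P c f) :
    GeQ P c' f := by
  rcases hf with hf | hf
  · exact Or.inl hf
  · exact Or.inr (h.trans hf)

theorem geQ_int {P : Place k K} {c : ℤ} {f : K} : GeQ P c f ↔ Ge P c f := by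
  unfold GeQ Ge
  norm_cast

theorem GeQ.pow {P : Place k K} {c : ℚ} {f : K} (hf : GeQ P c f) (r : ℕ) :
    GeQ P (r * c) (f ^ r) := by
  rcases eq_or_ne r 0 with rfl | hr
  · right
    rw [pow_zero, P.ord_one]
    simp
  rcases hf with hf | hf
  · left
    rw [hf, zero_pow hr]
  · right
    rw [P.ord_pow]
    push_cast
    exact mul_le_mul_of_nonneg_left hf (by positivity)

theorem geQ_of_pow {P : Place k K} {c : ℚ} {f : K} {r : ℕ} (hr : 0 < r)
    (hf : GeQ P (r * c) (f ^ r)) : GeQ P c f := by
  rcases hf with hf | hf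
  · exact Or.inl (pow_eq_zero_iff hr.ne' |>.1 hf)
  · right
    rw [P.ord_pow] at hf
    push_cast at hf
    have h1 : (0 : ℚ) < r := by exact_mod_cast hr
    exact le_of_mul_le_mul_left hf h1

theorem GeQ.mul {P : Place k K} {c c' : ℚ} {f g : K} (hf : GeQ P c f) (hg : GeQ P c' g) :
    GeQ P (c + c') (f * g) := by
  by_cases h1 : f = 0
  · exact Or.inl (by rw [h1, zero_mul])
  by_cases h2 : g = 0
  · exact Or.inl (by rw [h2, mul_zero])
  right
  rw [P.ord_mul h1 h2]
  push_cast
  exact add_le_add (hf.resolve_left h1) (hg.resolve_left h2)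

theorem GeQ.add {P : Place k K} {c : ℚ} {f g : K} (hf : GeQ P c f) (hg : GeQ P c g) :
    GeQ P c (f + g) := by
  by_cases h1 : f = 0
  · rwa [h1, zero_add]
  by_cases h2 : g = 0
  · rwa [h2, add_zero]
  by_cases h3 : f + g = 0
  · exact Or.inl h3
  right
  have h4 := P.ord_add h1 h2 h3
  rcases min_choice (P.ord f) (P.ord g) with h | h <;> rw [h] at h4
  · exact (hf.resolve_left h1).trans (by exact_mod_cast h4)
  · exact (hg.resolve_left h2).trans (by exact_mod_cast h4)

theorem GeQ.smul {P : Place k K} {c : ℚ} {f : K} (hf : GeQ P c f) (a : k) :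
    GeQ P c (algebraMap k K a * f) := by
  by_cases ha : a = 0
  · left
    rw [ha, map_zero, zero_mul]
  have h1 : GeQ P ((0 : ℤ) : ℚ) (algebraMap k K a) := geQ_int.2 (Ge.const a)
  have h2 := h1.mul hf
  rwa [Int.cast_zero, zero_add] at h2

/-- the order of the form `W` at `Q` is at least `c` -/
def OrdAt (Q : Place k K) (c : ℚ) (W : (Fin n → Derivation k K K) → K) : Prop :=
  ∀ G : Fin n → Derivation k K K, (∀ i, DerReg Q (G i)) → GeQ Q c (W G)

/-- the order of a form is its order on a local frame -/
theorem ordAt_of_loc {P : Place k K} {y : Fin n → K} {E : Fin n → Derivation k K K} {i0 : Fin n}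
    (hl : Loc P y E i0) {m : ℕ} {W : (Fin n → Derivation k K K) → K} (hW : IsPluri m W) {c : ℚ}
    (h : GeQ P c (W E)) : OrdAt P c W := by
  classical
  intro G hG
  rw [pluri_coord hl.bas hl.dual hW G]
  have h1 : Ge P 0 (Matrix.of fun i j => G i (y j) : Matrix (Fin n) (Fin n) K).det :=
    Pool.Agent.W619.PQ.ge_det P _ fun i j => hG i _ (hl.reg j)
  have h2 := (geQ_int.2 (h1.pow m)).mul h
  rw [mul_zero, Int.cast_zero, zero_add] at h2
  exact h2

end

end Pool.Agent.L0h17.DN
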