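import Pool.Agent.L0h17.DN.Pb

/-!
The ramification along the divisors which dominate the base.
-/

set_option autoImplicit false
set_option linter.overlappingInstances false
set_option linter.unusedSectionVars false

open FF Polynomial Pool.Agent.W602.GT Pool.Agent.W603.LV Pool.Agent.W619.PQ Pool.Agent.Y172
open Pool.Agent.W619.TW (IsPairSec PairNumLe PairKodGe HasIndep)

namespace Pool.Agent.L0h17.DN

section

variable {k K : Type} [Field k] [CharZero k] [Field K] [Algebra k K] {n : ℕ}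

/-- independent sections with different orders -/
theorem count {δ' : Place k K → ℚ} (hn : Algebra.trdeg k K = n) {h m0 : ℕ}
    {Ω : Fin (h + 1) → (Fin n → Derivation k K K) → K} (hΩ : ∀ j, IsPluri m0 (Ω j))
    (hΩQ : ∀ Q : Place k K, Divisorial n Q → ∀ j, OrdAt Q (-(m0 * δ' Q)) (Ω j))
    {D0 : Fin n → Derivation k K K} (hD0 : Ω 0 D0 ≠ 0) {Q0 : Place k K}
    (hhor : ∀ F : MvPolynomial (Fin h) k, F ≠ 0 →
      MvPolynomial.aeval (fun j : Fin h => Ω j.succ D0 / Ω 0 D0) F ≠ 0 ∧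
      Q0.ord (MvPolynomial.aeval (fun j : Fin h => Ω j.succ D0 / Ω 0 D0) F) = 0)
    {E0 : Fin n → Derivation k K K} (hE0 : Ω 0 E0 ≠ 0)
    {S' : Finset K} (V : Finset ℤ) (μ : ℤ → ℕ) (T : ℤ → (Fin n → Derivation k K K) → K)
    (hT : ∀ v ∈ V, IsPluri (m0 * μ v) (T v))
    (hTQ : ∀ v ∈ V, ∀ Q : Place k K, Divisorial n Q → ∀ G : Fin n → Derivation k K K,
      (∀ i, DerReg Q (G i)) → T v G = 0 ∨ ∃ s ∈ S', s ≠ 0 ∧
        (Q.ord s : ℚ) - (m0 * μ v : ℕ) * δ' Q ≤ Q.ord (T v G))
    (hT0 : ∀ v ∈ V, T v E0 ≠ 0) (hTv : ∀ v ∈ V, Q0.ord (T v E0) - μ v * Q0.ord (Ω 0 E0) = v)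
    (c : ℕ) (hc : ∀ v ∈ V, μ v ≤ c) :
    HasIndep k K n (V.card * (c + 1) ^ h) (IsPairSec k K n δ' S' (m0 * ((h + 1) * c)) 1) := by
  classical
  obtain ⟨g, hg⟩ : ∃ g : Fin h → K, g = fun j : Fin h => Ω j.succ D0 / Ω 0 D0 := ⟨_, rfl⟩
  rw [← hg] at hhor
  have hratio : ∀ (j : Fin h) (G : Fin n → Derivation k K K), Ω j.succ G = g j * Ω 0 G := by
    intro j G
    rw [hg]
    exact ratio_eq hn (hΩ 0) (hΩ j.succ) hD0 G
  -- the sections
  let X := V × (Fin h → Fin (c + 1))
  let ω : X → (Fin n → Derivation k K K) → K := fun x G =>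
    T x.1 G * (Ω 0 G ^ ((h + 1) * c - μ x.1 - ∑ j, (x.2 j : ℕ)) *
      ∏ j, Ω (Fin.succ j) G ^ (x.2 j : ℕ))
  have hcard : Fintype.card X = V.card * (c + 1) ^ h := by
    simp only [X, Fintype.card_prod, Fintype.card_coe, Fintype.card_fun, Fintype.card_fin]
  have hsum : ∀ x : X, μ x.1 + (∑ j, (x.2 j : ℕ)) ≤ (h + 1) * c := by
    intro x
    have h1 : ∑ j, (x.2 j : ℕ) ≤ ∑ _j : Fin h, c :=
      Finset.sum_le_sum fun j _ => Nat.lt_succ_iff.1 (x.2 j).2
    rw [Finset.sum_const, Finset.card_univ, Fintype.card_fin, smul_eq_mul] at h1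
    have h2 := hc x.1 x.1.2
    calc μ x.1 + (∑ j, (x.2 j : ℕ)) ≤ c + h * c := Nat.add_le_add h2 h1
      _ = (h + 1) * c := by ring
  have hω : ∀ x : X, IsPairSec k K n δ' S' (m0 * ((h + 1) * c)) 1 (ω x) := by
    intro x
    have hw : (m0 * μ x.1) + ((((h + 1) * c - μ x.1 - ∑ j, (x.2 j : ℕ)) * m0) +
        ∑ j, (x.2 j : ℕ) * m0) = m0 * ((h + 1) * c) := by
      rw [← Finset.sum_mul, ← add_mul]
      have h3 : (h + 1) * c - μ x.1 - (∑ j, (x.2 j : ℕ)) + (∑ j, (x.2 j : ℕ)) =
          (h + 1) * c - μ x.1 := Nat.sub_add_cancel (by have := hsum x; omega)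
      rw [h3, mul_comm _ m0, ← mul_add, Nat.add_sub_cancel' (by have := hsum x; omega)]
    refine ⟨?_, fun Q hQ G hG => ?_⟩
    · have h1 := pluri_mul (hT x.1 x.1.2) (pluri_mul (pluri_ppow (hΩ 0)
        ((h + 1) * c - μ x.1 - ∑ j, (x.2 j : ℕ))) (pluri_prod Finset.univ
          (m := fun j : Fin h => (x.2 j : ℕ) * m0)
          (W := fun j G => Ω (Fin.succ j) G ^ (x.2 j : ℕ)) fun j _ =>
            pluri_ppow (hΩ (Fin.succ j)) (x.2 j : ℕ)))
      rw [hw] at h1
      exact h1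
    · rcases hTQ x.1 x.1.2 Q hQ G hG with h1 | ⟨s, hs, hs0, h1⟩
      · left
        change T x.1 G * _ = 0
        rw [h1, zero_mul]
      · have h2 : GeQ Q ((Q.ord s : ℚ) - (m0 * μ x.1 : ℕ) * δ' Q) (T x.1 G) := Or.inr h1
        have h3 := (hΩQ Q hQ 0 G hG).pow ((h + 1) * c - μ x.1 - ∑ j, (x.2 j : ℕ))
        have h4 := GeQ.prod Finset.univ (c := fun j : Fin h => ((x.2 j : ℕ) : ℚ) * -(m0 * δ' Q))
          (f := fun j => Ω (Fin.succ j) G ^ (x.2 j : ℕ)) fun j _ =>
            (hΩQ Q hQ (Fin.succ j) G hG).pow (x.2 j : ℕ)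
        rcases h2.mul (h3.mul h4) with h5 | h5
        · exact Or.inl h5
        · refine Or.inr ⟨s, hs, hs0, ?_⟩
          refine le_trans (le_of_eq ?_) h5
          have hw' : (((m0 * μ x.1) + ((((h + 1) * c - μ x.1 - ∑ j, (x.2 j : ℕ)) * m0) +
            ∑ j, (x.2 j : ℕ) * m0) : ℕ) : ℚ) = ((m0 * ((h + 1) * c) : ℕ) : ℚ) := by rw [hw]
          rw [← hw', ← Finset.sum_mul]
          push_cast
          rw [← Finset.sum_mul]
          ring
  -- the independence
  have hli : LinearIndependent k ω := by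
    rw [Fintype.linearIndependent_iff]
    intro a ha
    obtain ⟨w, hw⟩ : ∃ w, w = Ω 0 E0 := ⟨_, rfl⟩
    -- the polynomials
    let F : V → MvPolynomial (Fin h) k := fun v =>
      ∑ α : Fin h → Fin (c + 1), MvPolynomial.monomial
        (Finsupp.equivFunOnFinite.symm fun j => (α j : ℕ)) (a (v, α))
    have hF : ∀ v : V, MvPolynomial.aeval g (F v) =
        ∑ α : Fin h → Fin (c + 1), algebraMap k K (a (v, α)) * ∏ j, g j ^ (α j : ℕ) := by
      intro v
      change MvPolynomial.aeval g (∑ α : Fin h → Fin (c + 1), _) = _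
      rw [map_sum]
      refine Finset.sum_congr rfl fun α _ => ?_
      rw [MvPolynomial.aeval_monomial, Finsupp.prod_fintype _ _ (fun i => by simp)]
      rfl
    have h1 : ∑ v : V, T v E0 * w ^ ((h + 1) * c - μ v) * MvPolynomial.aeval g (F v) = 0 := by
      have h2 := congrFun ha E0
      rw [Finset.sum_apply, Pi.zero_apply, Fintype.sum_prod_type] at h2
      rw [← h2]
      refine Finset.sum_congr rfl fun v _ => ?_
      rw [hF, Finset.mul_sum]
      refine Finset.sum_congr rfl fun α _ => ?_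
      rw [Pi.smul_apply, Algebra.smul_def]
      change _ = algebraMap k K (a (v, α)) * (T v E0 * (Ω 0 E0 ^ ((h + 1) * c - μ v -
        ∑ j, (α j : ℕ)) * ∏ j, Ω (Fin.succ j) E0 ^ (α j : ℕ)))
      have h3 : ∏ j, Ω (Fin.succ j) E0 ^ (α j : ℕ) = (∏ j, g j ^ (α j : ℕ)) *
          w ^ (∑ j, (α j : ℕ)) := by
        rw [← Finset.prod_pow_eq_pow_sum, ← Finset.prod_mul_distrib]
        refine Finset.prod_congr rfl fun j _ => ?_
        rw [hratio, mul_pow, hw]
      have h4 : w ^ ((h + 1) * c - μ v) = w ^ ((h + 1) * c - μ v - ∑ j, (α j : ℕ)) *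
          w ^ (∑ j, (α j : ℕ)) := by
        rw [← pow_add, Nat.sub_add_cancel]
        have := hsum (v, α)
        change μ v + (∑ j, (α j : ℕ)) ≤ _ at this
        omega
      rw [h3, h4, hw]
      ring
    -- all the polynomials are zero
    have h2 : ∀ v, F v = 0 := by
      by_contra hcon
      push Not at hcon
      obtain ⟨v1, hv1⟩ := hcon
      have hw0 : w ≠ 0 := hw ▸ hE0
      refine sum_ne_zero_of_ord Q0 (Finset.univ.filter fun v : V => F v ≠ 0)
        (fun v => T v E0 * w ^ ((h + 1) * c - μ v) * MvPolynomial.aeval g (F v)) ?_ ?_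
        ⟨v1, by simpa using hv1⟩ ?_
      · intro v hv
        rw [Finset.mem_filter] at hv
        exact mul_ne_zero (mul_ne_zero (hT0 v v.2) (pow_ne_zero _ hw0)) (hhor _ hv.2).1
      · intro v hv v' hv' hvv
        rw [Finset.mem_filter] at hv hv'
        have hord : ∀ v : V, F v ≠ 0 →
            Q0.ord (T v E0 * w ^ ((h + 1) * c - μ v) * MvPolynomial.aeval g (F v)) =
              v + ((h + 1) * c : ℕ) * Q0.ord w := by
          intro v hv
          rw [Q0.ord_mul (mul_ne_zero (hT0 v v.2) (pow_ne_zero _ hw0)) (hhor _ hv).1,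
            Q0.ord_mul (hT0 v v.2) (pow_ne_zero _ hw0), Q0.ord_pow, (hhor _ hv).2, add_zero]
          have h5 := hTv v v.2
          rw [← hw] at h5
          have h6 : μ v ≤ (h + 1) * c := by
            have := hc v v.2
            nlinarith
          rw [Nat.cast_sub h6]
          linear_combination h5
        rw [hord v hv.2, hord v' hv'.2] at hvv
        exact Subtype.ext (by linarith)
      · rw [Finset.sum_filter_of_ne]
        · exact h1
        · intro v _ hv h0
          exact hv (by rw [h0, map_zero, mul_zero])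
    rintro ⟨v, α⟩
    have h3 := congrArg (MvPolynomial.coeff (Finsupp.equivFunOnFinite.symm fun j => (α j : ℕ)))
      (h2 v)
    change MvPolynomial.coeff _ (∑ β : Fin h → Fin (c + 1), _) = _ at h3
    rw [MvPolynomial.coeff_sum, Finset.sum_eq_single α] at h3
    · rw [MvPolynomial.coeff_monomial, if_pos rfl, MvPolynomial.coeff_zero] at h3
      exact h3
    · intro β _ hβ
      rw [MvPolynomial.coeff_monomial, if_neg]
      intro h4
      apply hβ
      funext j
      have h5 := DFunLike.congr_fun h4 j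
      exact Fin.ext h5
    · intro h4
      exact absurd (Finset.mem_univ _) h4
  let e : Fin (V.card * (c + 1) ^ h) ≃ X := (Fintype.equivFinOfCardEq hcard).symm
  exact ⟨fun i => ω (e i), hli.comp e e.injective, fun i => hω (e i)⟩

end

end Pool.Agent.L0h17.DN
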