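import Pool.Agent.L0h17.DN.Hor

/-!
The ramification along the divisors which dominate the base: the bound.
-/

set_option autoImplicit false
set_option linter.overlappingInstances false
set_option linter.unusedSectionVars false

open FF Polynomial Pool.Agent.W602.GT Pool.Agent.W603.LV Pool.Agent.W619.PQ Pool.Agent.Y172
open Pool.Agent.W619.TW (IsPairSec PairNumLe PairKodGe HasIndep)

namespace Pool.Agent.L0h17.DN

section

variable (k K : Type) [Field k] [Field K] [Algebra k K]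

/-- `ν (K_X + Δ) = -∞`: for every divisor `A` (generated by a finite set `S` of functions),
`m (K_X + Δ) + A` has no nonzero section for large `m`. -/
def PairNumNeg (n : ℕ) (δ : Place k K → ℚ) : Prop :=
  ∀ S : Finset K, ∃ m₁ : ℕ, ∀ m, m₁ ≤ m → ¬ HasIndep k K n 1 (IsPairSec k K n δ S m 1)

end

section

variable {k K : Type} [Field k] [CharZero k] [Field K] [Algebra k K] {n : ℕ}

/-- a nonzero section on a local frame -/
theorem sec_loc [Algebra.EssFiniteType k K] (hn : Algebra.trdeg k K = n) {δ : Place k K → ℚ}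
    {S : Finset K} {m : ℕ} {σ : (Fin n → Derivation k K K) → K} (h : IsPairSec k K n δ S m 1 σ)
    {D : Fin n → Derivation k K K} (hD : σ D ≠ 0) {P : Place k K} (hP : Divisorial n P) :
    ∃ s ∈ S, s ≠ 0 ∧ OrdAt P (P.ord s - m * δ P) σ := by
  obtain ⟨y, E, i0, hl⟩ := exists_loc hn hP
  have h0 := ne_frame h.1 hD hl.bas hl.dual
  obtain ⟨s, hs, hs0, h1⟩ := (h.2 P hP E hl.pres).resolve_left h0
  refine ⟨s, hs, hs0, ordAt_of_loc hl h.1 (Or.inr ?_)⟩
  simpa using h1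

end

section

variable {k L K : Type} [Field k] [CharZero k] [Field L] [Field K] [Algebra k L] [Algebra k K]
  [Algebra L K] [IsScalarTower k L K] [FiniteDimensional L K] [Algebra.EssFiniteType k L]
  [Algebra.EssFiniteType k K] {n : ℕ}

/-- the pull-back of a section -/
theorem pb_sec_ord (hn : Algebra.trdeg k L = n) {δ : Place k L → ℚ} {S : Finset L} {m : ℕ}
    {σ : (Fin n → Derivation k L L) → L} (h : IsPairSec k L n δ S m 1 σ)
    {D : Fin n → Derivation k L L} (hD : σ D ≠ 0) {y : Fin n → L}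
    {E : Fin n → Derivation k L L} (hy : IsTranscendenceBasis k y)
    (hE : ∀ i j, E i (y j) = if i = j then 1 else 0) {P : Place k L} {Q : Place k K} {e : ℕ}
    (hQP : Over Q P e) (hQ : Divisorial n Q) :
    ∃ s ∈ S, s ≠ 0 ∧ OrdAt Q (Q.ord (algebraMap L K s) + m * (((e : ℚ) - 1) - e * δ P))
      (pb m y E σ) := by
  have hP : Divisorial n P := divisorial_down hQP hQ
  obtain ⟨s, hs, hs0, h1⟩ := sec_loc hn h hD hP
  refine ⟨s, hs, hs0, ?_⟩
  have h2 := pb_order hy hE hn h.1 hP hQP h1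
  have h3 : (m : ℚ) * ((e : ℚ) - 1) + e * (P.ord s - m * δ P) =
      Q.ord (algebraMap L K s) + m * (((e : ℚ) - 1) - e * δ P) := by
    rw [hQP.2]
    push_cast
    ring
  rwa [h3] at h2

theorem hor_bound (hn : Algebra.trdeg k L = n) {δ : Place k L → ℚ} {δ' : Place k K → ℚ}
    (hpull : ∀ (Q : Place k K) (P : Place k L) (e : ℕ), Over Q P e → Divisorial n Q →
      1 - δ' Q ≤ e * (1 - δ P))
    {h m0 : ℕ} (hm0 : 1 ≤ m0) (hnum : PairNumLe k K n δ' h)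
    {Ω : Fin (h + 1) → (Fin n → Derivation k K K) → K} (hΩ : ∀ j, IsPluri m0 (Ω j))
    (hΩQ : ∀ Q : Place k K, Divisorial n Q → ∀ j, OrdAt Q (-(m0 * δ' Q)) (Ω j))
    {D0 : Fin n → Derivation k K K} (hD0 : Ω 0 D0 ≠ 0) {Q0 : Place k K} (hQ0 : Divisorial n Q0)
    (hhor : ∀ F : MvPolynomial (Fin h) k, F ≠ 0 →
      MvPolynomial.aeval (fun j : Fin h => Ω j.succ D0 / Ω 0 D0) F ≠ 0 ∧
      Q0.ord (MvPolynomial.aeval (fun j : Fin h => Ω j.succ D0 / Ω 0 D0) F) = 0)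
    (hneg : ¬ PairNumNeg k L n δ) {P0 : Place k L} {e0 : ℕ} (hQP : Over Q0 P0 e0) :
    OrdAt Q0 (m0 * ((e0 : ℚ) - 1) - m0 * e0 * δ P0) (Ω 0) := by
  classical
  have hnK : Algebra.trdeg k K = n := trdeg_up (K := L) hn
  obtain ⟨y0, E0, i0, hl⟩ := exists_loc hnK hQ0
  refine ordAt_of_loc hl (hΩ 0) ?_
  by_contra hcon
  have hE0 : Ω 0 E0 ≠ 0 := fun h0 => hcon (Or.inl h0)
  have hw0 : ((Q0.ord (Ω 0 E0) : ℤ) : ℚ) < m0 * ((e0 : ℚ) - 1) - m0 * e0 * δ P0 := by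
    by_contra h1
    exact hcon (Or.inr (not_lt.1 h1))
  obtain ⟨w0, hw0d⟩ : ∃ w0, w0 = Q0.ord (Ω 0 E0) := ⟨_, rfl⟩
  rw [← hw0d] at hw0
  obtain ⟨lam, hlam⟩ : ∃ lam : ℚ, lam = m0 * ((e0 : ℚ) - 1) - m0 * e0 * δ P0 := ⟨_, rfl⟩
  rw [← hlam] at hw0
  obtain ⟨y, E, hy, hE⟩ := exists_crd (k := k) hn
  -- sections
  obtain ⟨S, hS⟩ : ∃ S : Finset L, ∀ m₁ : ℕ, ∃ m, m₁ ≤ m ∧
      ∃ σ : (Fin n → Derivation k L L) → L, IsPairSec k L n δ S m 1 σ ∧ ∃ D, σ D ≠ 0 := by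
    unfold PairNumNeg at hneg
    push Not at hneg
    obtain ⟨S, hS⟩ := hneg
    refine ⟨S, fun m₁ => ?_⟩
    obtain ⟨m, hm, σ, hσ, hσs⟩ := hS m₁
    refine ⟨m, hm, σ 0, hσs 0, ?_⟩
    by_contra hc
    push Not at hc
    exact hσ.ne_zero 0 (funext hc)
  have hST : ∀ (m : ℕ) (σ : (Fin n → Derivation k L L) → L), (∃ D, σ D ≠ 0) →
      pb (K := K) m y E σ E0 = 0 → IsPairSec k L n δ S m 1 σ → False := by
    rintro m σ ⟨D, hD⟩ h0 hσ
    have h1 := ne_frame hσ.1 hD hy hE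
    have h2 := pb_lft (K := K) hE hn m σ
    have h3 : pb (K := K) m y E σ (fun i => lft (K := K) hn (E i)) ≠ 0 := by
      rw [h2, Ne, map_eq_zero]
      exact h1
    exact ne_frame (pb_pluri m y E σ) h3 hl.bas hl.dual h0
  obtain ⟨cS, hcS⟩ : ∃ cS : ℤ, ∀ s ∈ S, cS ≤ Q0.ord (algebraMap L K s) := by
    refine ⟨-∑ s ∈ S, |Q0.ord (algebraMap L K s)|, fun s hs => ?_⟩
    have h1 := Finset.single_le_sum (f := fun s : L => |Q0.ord (algebraMap L K s)|)
      (fun _ _ => abs_nonneg _) hs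
    have h2 := neg_abs_le (Q0.ord (algebraMap L K s))
    have h3 : |Q0.ord (algebraMap L K s)| ≤ ∑ s ∈ S, |Q0.ord (algebraMap L K s)| := h1
    omega
  -- the values
  let Vs : Set ℤ := {v | ∃ (m : ℕ) (σ : (Fin n → Derivation k L L) → L),
    IsPairSec k L n δ S m 1 σ ∧ (∃ D, σ D ≠ 0) ∧
      Q0.ord (pb (K := K) m y E σ E0 ^ m0) - m * w0 = v}
  have hVs : Vs.Infinite := by
    refine Set.infinite_of_not_bddAbove ?_
    rintro ⟨B, hB⟩
    obtain ⟨m₁, hm₁⟩ : ∃ m₁ : ℕ, (B - m0 * cS + 1 : ℚ) / (lam - w0) ≤ m₁ := exists_nat_ge _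
    obtain ⟨m, hm, σ, hσ, D, hD⟩ := hS m₁
    have h1 : Q0.ord (pb (K := K) m y E σ E0 ^ m0) - m * w0 ≤ B := hB ⟨m, σ, hσ, ⟨D, hD⟩, rfl⟩
    obtain ⟨s, hs, hs0, h2⟩ := pb_sec_ord (K := K) hn hσ hD hy hE hQP hQ0
    have h3 := (h2 E0 hl.pres).resolve_left fun h0 => hST m σ ⟨D, hD⟩ h0 hσ
    have hpos : (0 : ℚ) < lam - w0 := sub_pos.2 hw0
    rw [div_le_iff₀ hpos] at hm₁
    have h4 : (m₁ : ℚ) ≤ m := by exact_mod_cast hm
    have h5 : (m₁ : ℚ) * (lam - w0) ≤ m * (lam - w0) := mul_le_mul_of_nonneg_right h4 hpos.le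
    rw [Q0.ord_pow] at h1
    have h6 : ((m0 : ℤ) * Q0.ord (pb (K := K) m y E σ E0) - m * w0 : ℚ) ≤ B := by exact_mod_cast h1
    have h7 : (cS : ℚ) ≤ (Q0.ord (algebraMap L K s) : ℚ) := by exact_mod_cast hcS s hs
    have h8 : (0 : ℚ) ≤ m0 := by positivity
    have h9 := mul_le_mul_of_nonneg_left (le_trans (add_le_add_left h7 _) h3) h8
    push_cast at h6
    have h10 : (m0 : ℚ) * (cS + m * (((e0 : ℚ) - 1) - e0 * δ P0)) = m0 * cS + m * lam := by
      rw [hlam]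
      ring
    rw [h10] at h9
    linarith
  obtain ⟨C, hC⟩ := hnum (S.image fun s => algebraMap L K s ^ m0)
  obtain ⟨V, hVsub, hVcard⟩ := hVs.exists_subset_card_eq (C * (m0 * (h + 1)) ^ h + 1)
  have hV' : ∀ v ∈ V, ∃ (m : ℕ) (σ : (Fin n → Derivation k L L) → L),
      IsPairSec k L n δ S m 1 σ ∧ (∃ D, σ D ≠ 0) ∧
        Q0.ord (pb (K := K) m y E σ E0 ^ m0) - m * w0 = v := fun v hv => hVsub hv
  choose! μ σ hσ hσ0 hval using hV'
  obtain ⟨c, hcd⟩ : ∃ c : ℕ, c = 1 + ∑ v ∈ V, μ v := ⟨_, rfl⟩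
  have hc : ∀ v ∈ V, μ v ≤ c := by
    intro v hv
    have := Finset.single_le_sum (f := μ) (fun _ _ => Nat.zero_le _) hv
    omega
  have hmain := count (δ' := δ') hnK hΩ hΩQ hD0 hhor hE0
    (S' := S.image fun s => algebraMap L K s ^ m0) V μ
    (fun v G => pb (K := K) (μ v) y E (σ v) G ^ m0)
    (fun v _ => pluri_ppow (pb_pluri (K := K) (μ v) y E (σ v)) m0)
    (fun v hv Q hQ G hG => by
      obtain ⟨P, e, hQe⟩ := exists_below (k := k) (K := L) (L := K) Q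
      obtain ⟨D, hD⟩ := hσ0 v hv
      obtain ⟨s, hs, hs0, h2⟩ := pb_sec_ord (K := K) hn (hσ v hv) hD hy hE hQe hQ
      rcases (h2 G hG).pow m0 with h3 | h3
      · exact Or.inl h3
      · refine Or.inr ⟨algebraMap L K s ^ m0, Finset.mem_image_of_mem _ hs,
          pow_ne_zero _ ((_root_.map_ne_zero _).2 hs0), le_trans ?_ h3⟩
        rw [Q.ord_pow]
        have h4 := hpull Q P e hQe hQ
        have h5 : -δ' Q ≤ ((e : ℚ) - 1) - e * δ P := by linarith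
        have h6 : (0 : ℚ) ≤ (m0 : ℚ) * μ v := by positivity
        have h7 := mul_le_mul_of_nonneg_left h5 h6
        push_cast
        linarith)
    (fun v hv => by
      refine pow_ne_zero _ fun h0 => ?_
      exact hST (μ v) (σ v) (hσ0 v hv) h0 (hσ v hv))
    (fun v hv => by
      have := hval v hv
      rw [← hw0d]
      exact this) c hc
  have h1 := hC _ _ (Nat.mul_pos hm0 (Nat.mul_pos (Nat.succ_pos h) (by omega))) hmain
  rw [hVcard] at h1
  have h2 : C * (m0 * ((h + 1) * c)) ^ h = C * (m0 * (h + 1)) ^ h * c ^ h := by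
    rw [mul_assoc, ← mul_pow]
    congr 2
    ring
  rw [h2] at h1
  have h3 : c ^ h ≤ (c + 1) ^ h := Nat.pow_le_pow_left (Nat.le_succ c) h
  have h4 : 0 < c ^ h := Nat.pow_pos (by omega)
  have h5 : (C * (m0 * (h + 1)) ^ h + 1) * c ^ h ≤ C * (m0 * (h + 1)) ^ h * c ^ h :=
    le_trans (Nat.mul_le_mul_left _ h3) h1
  nlinarith

end

end Pool.Agent.L0h17.DN
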