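import Pool.Agent.L0h17.DN.Hor2

/-!
Lower bounds for the Kodaira dimension by discriminants and norms, and upper bounds for the
numerical dimension by pull-backs.
-/

set_option autoImplicit false
set_option linter.overlappingInstances false
set_option linter.unusedSectionVars false

open FF Polynomial Pool.Agent.W602.GT Pool.Agent.W603.LV Pool.Agent.W619.PQ Pool.Agent.Y172
open Pool.Agent.W619.TW (IsPairSec PairNumLe PairKodGe HasIndep)

namespace Pool.Agent.L0h17.DN

section

variable {k K : Type} [Field k] [CharZero k] [Field K] [Algebra k K] {n : ℕ}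

/-- many independent sections from algebraically independent ratios -/
theorem kodGe_of (hn : Algebra.trdeg k K = n) {δ : Place k K → ℚ} {M h : ℕ} (hM : 1 ≤ M)
    {Φ : Fin (h + 1) → (Fin n → Derivation k K K) → K} (hΦ : ∀ j, IsPluri M (Φ j))
    (hord : ∀ P : Place k K, Divisorial n P → ∀ j, OrdAt P (-(M * δ P)) (Φ j))
    {D0 : Fin n → Derivation k K K} (hD0 : Φ 0 D0 ≠ 0)
    (hind : AlgebraicIndependent k fun j : Fin h => Φ j.succ D0 / Φ 0 D0) :
    PairKodGe k K n δ h := by
  classical
  refine ⟨(h + 1) * M, Nat.mul_pos (Nat.succ_pos h) hM, fun j hj => ?_⟩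
  obtain ⟨g, hg⟩ : ∃ g : Fin h → K, g = fun j : Fin h => Φ j.succ D0 / Φ 0 D0 := ⟨_, rfl⟩
  rw [← hg] at hind
  have hratio : ∀ (j : Fin h) (G : Fin n → Derivation k K K), Φ j.succ G = g j * Φ 0 G := by
    intro j G
    rw [hg]
    exact ratio_eq hn (hΦ 0) (hΦ j.succ) hD0 G
  let ω : (Fin h → Fin j) → (Fin n → Derivation k K K) → K := fun α G =>
    Φ 0 G ^ ((h + 1) * j - ∑ i, (α i : ℕ)) * ∏ i, Φ (Fin.succ i) G ^ (α i : ℕ)
  have hsum : ∀ α : Fin h → Fin j, (∑ i, (α i : ℕ)) ≤ (h + 1) * j := by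
    intro α
    have h1 : ∑ i, (α i : ℕ) ≤ ∑ _i : Fin h, j := Finset.sum_le_sum fun i _ => (α i).2.le
    rw [Finset.sum_const, Finset.card_univ, Fintype.card_fin, smul_eq_mul] at h1
    nlinarith
  have hω : ∀ α, IsPairSec k K n δ {1} (j * ((h + 1) * M)) 0 (ω α) := by
    intro α
    have hw : ((h + 1) * j - ∑ i, (α i : ℕ)) * M + ∑ i, (α i : ℕ) * M = j * ((h + 1) * M) := by
      rw [← Finset.sum_mul, ← add_mul, Nat.sub_add_cancel (hsum α)]
      ring
    refine ⟨?_, fun Q hQ G hG => ?_⟩
    · have h1 := pluri_mul (pluri_ppow (hΦ 0) ((h + 1) * j - ∑ i, (α i : ℕ)))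
        (pluri_prod Finset.univ (m := fun i : Fin h => (α i : ℕ) * M)
          (W := fun i G => Φ (Fin.succ i) G ^ (α i : ℕ)) fun i _ =>
            pluri_ppow (hΦ (Fin.succ i)) (α i : ℕ))
      rw [hw] at h1
      exact h1
    · have h3 := (hord Q hQ 0 G hG).pow ((h + 1) * j - ∑ i, (α i : ℕ))
      have h4 := GeQ.prod Finset.univ (c := fun i : Fin h => ((α i : ℕ) : ℚ) * -(M * δ Q))
        (f := fun i => Φ (Fin.succ i) G ^ (α i : ℕ)) fun i _ =>
          (hord Q hQ (Fin.succ i) G hG).pow (α i : ℕ)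
      rcases h3.mul h4 with h5 | h5
      · exact Or.inl h5
      · refine Or.inr ⟨1, Finset.mem_singleton_self 1, one_ne_zero, ?_⟩
        refine le_trans (le_of_eq ?_) h5
        have hw' : ((((h + 1) * j - ∑ i, (α i : ℕ)) * M + ∑ i, (α i : ℕ) * M : ℕ) : ℚ) =
          ((j * ((h + 1) * M) : ℕ) : ℚ) := by rw [hw]
        rw [← hw', ← Finset.sum_mul]
        push_cast
        rw [← Finset.sum_mul]
        ring
  have hli : LinearIndependent k ω := by
    rw [Fintype.linearIndependent_iff]
    intro a ha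
    let F : MvPolynomial (Fin h) k := ∑ α : Fin h → Fin j, MvPolynomial.monomial
        (Finsupp.equivFunOnFinite.symm fun i => (α i : ℕ)) (a α)
    have hF : MvPolynomial.aeval g F =
        ∑ α : Fin h → Fin j, algebraMap k K (a α) * ∏ i, g i ^ (α i : ℕ) := by
      change MvPolynomial.aeval g (∑ α : Fin h → Fin j, _) = _
      rw [map_sum]
      refine Finset.sum_congr rfl fun α _ => ?_
      rw [MvPolynomial.aeval_monomial, Finsupp.prod_fintype _ _ (fun i => by simp)]
      rfl
    have h1 : Φ 0 D0 ^ ((h + 1) * j) * MvPolynomial.aeval g F = 0 := by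
      have h2 := congrFun ha D0
      rw [Finset.sum_apply, Pi.zero_apply] at h2
      rw [← h2, hF, Finset.mul_sum]
      refine Finset.sum_congr rfl fun α _ => ?_
      rw [Pi.smul_apply, Algebra.smul_def]
      change _ = algebraMap k K (a α) * (Φ 0 D0 ^ ((h + 1) * j - ∑ i, (α i : ℕ)) *
        ∏ i, Φ (Fin.succ i) D0 ^ (α i : ℕ))
      have h3 : ∏ i, Φ (Fin.succ i) D0 ^ (α i : ℕ) = (∏ i, g i ^ (α i : ℕ)) *
          Φ 0 D0 ^ (∑ i, (α i : ℕ)) := by
        rw [← Finset.prod_pow_eq_pow_sum, ← Finset.prod_mul_distrib]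
        refine Finset.prod_congr rfl fun i _ => ?_
        rw [hratio, mul_pow]
      have h4 : Φ 0 D0 ^ ((h + 1) * j) = Φ 0 D0 ^ ((h + 1) * j - ∑ i, (α i : ℕ)) *
          Φ 0 D0 ^ (∑ i, (α i : ℕ)) := by
        rw [← pow_add, Nat.sub_add_cancel (hsum α)]
      rw [h3, h4]
      ring
    have h2 : F = 0 := by
      have h3 := (mul_eq_zero.1 h1).resolve_left (pow_ne_zero _ hD0)
      exact (injective_iff_map_eq_zero _).1 hind F h3
    intro α
    have h3 := congrArg (MvPolynomial.coeff (Finsupp.equivFunOnFinite.symm fun i => (α i : ℕ))) h2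
    change MvPolynomial.coeff _ (∑ β : Fin h → Fin j, _) = _ at h3
    rw [MvPolynomial.coeff_sum, Finset.sum_eq_single α] at h3
    · rw [MvPolynomial.coeff_monomial, if_pos rfl, MvPolynomial.coeff_zero] at h3
      exact h3
    · intro β _ hβ
      rw [MvPolynomial.coeff_monomial, if_neg]
      intro h4
      apply hβ
      funext i
      have h5 := DFunLike.congr_fun h4 i
      exact Fin.ext h5
    · intro h4
      exact absurd (Finset.mem_univ _) h4
  have hcard : Fintype.card (Fin h → Fin j) = j ^ h := by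
    rw [Fintype.card_fun, Fintype.card_fin, Fintype.card_fin]
  let e : Fin (j ^ h) ≃ (Fin h → Fin j) := (Fintype.equivFinOfCardEq hcard).symm
  exact ⟨fun i => ω (e i), hli.comp e e.injective, fun i => hω (e i)⟩

end

section

variable {k L K : Type} [Field k] [CharZero k] [Field L] [Field K] [Algebra k L] [Algebra k K]
  [Algebra L K] [IsScalarTower k L K] [FiniteDimensional L K] [Algebra.EssFiniteType k L]
  [Algebra.EssFiniteType k K] {n : ℕ}

/-- **The numerical dimension of the image.** -/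
theorem num_down (hn : Algebra.trdeg k L = n) {δ : Place k L → ℚ} {δ' : Place k K → ℚ}
    (hpull : ∀ (Q : Place k K) (P : Place k L) (e : ℕ), Over Q P e → Divisorial n Q →
      1 - δ' Q ≤ e * (1 - δ P)) {h : ℕ} (hnum : PairNumLe k K n δ' h) : PairNumLe k L n δ h := by
  classical
  obtain ⟨y, E, hy, hE⟩ := exists_crd (k := k) hn
  intro S
  obtain ⟨C, hC⟩ := hnum (S.image (algebraMap L K))
  refine ⟨C, fun m N hm hI => hC m N hm ?_⟩
  obtain ⟨ω, hli, hω⟩ := hI
  have hne : ∀ l, ∃ D, ω l D ≠ 0 := by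
    intro l
    by_contra hc
    push Not at hc
    exact hli.ne_zero l (funext hc)
  refine ⟨fun l => pb (K := K) m y E (ω l), ?_, fun l => ⟨pb_pluri m y E (ω l), ?_⟩⟩
  · rw [Fintype.linearIndependent_iff] at hli ⊢
    intro a ha
    refine hli a ?_
    have h1 := congrFun ha (fun i => lft (K := K) hn (E i))
    rw [Finset.sum_apply, Pi.zero_apply] at h1
    have h2 : algebraMap L K (∑ l, a l • ω l E) = 0 := by
      rw [map_sum, ← h1]
      refine Finset.sum_congr rfl fun l _ => ?_
      rw [Pi.smul_apply, pb_lft hE hn, Algebra.smul_def, Algebra.smul_def, map_mul,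
        ← IsScalarTower.algebraMap_apply]
    have h3 : ∑ l, a l • ω l E = 0 := (map_eq_zero _).1 h2
    funext G
    rw [Finset.sum_apply, Pi.zero_apply]
    have h4 : ∀ l, ω l G = (Matrix.of fun i j => G i (y j)).det ^ m * ω l E :=
      fun l => pluri_coord hy hE (hω l).1 G
    have h5 : ∑ l, (a l • ω l) G = (Matrix.of fun i j => G i (y j)).det ^ m *
        ∑ l, a l • ω l E := by
      rw [Finset.mul_sum]
      refine Finset.sum_congr rfl fun l _ => ?_
      rw [Pi.smul_apply, h4, Algebra.smul_def, Algebra.smul_def]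
      ring
    rw [h5, h3, mul_zero]
  · intro Q hQ G hG
    obtain ⟨P, e, hQe⟩ := exists_below (k := k) (K := L) (L := K) Q
    obtain ⟨D, hD⟩ := hne l
    obtain ⟨s, hs, hs0, h2⟩ := pb_sec_ord (K := K) hn (hω l) hD hy hE hQe hQ
    rcases h2 G hG with h3 | h3
    · exact Or.inl h3
    · refine Or.inr ⟨algebraMap L K s, Finset.mem_image_of_mem _ hs,
        (_root_.map_ne_zero _).2 hs0, le_trans ?_ h3⟩
      have h4 := hpull Q P e hQe hQ
      have h5 : -δ' Q ≤ ((e : ℚ) - 1) - e * δ P := by linarith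
      have h6 : (0 : ℚ) ≤ m := by positivity
      have h7 := mul_le_mul_of_nonneg_left h5 h6
      push_cast
      linarith

end

section

variable {k L M K : Type} [Field k] [CharZero k] [Field L] [Field M] [Field K] [Algebra k L]
  [Algebra k M] [Algebra k K] [Algebra L M] [Algebra M K] [Algebra L K] [IsScalarTower L M K]
  [IsScalarTower k L M] [IsScalarTower k M K] [IsScalarTower k L K] [FiniteDimensional L M]
  [FiniteDimensional M K] [FiniteDimensional L K] [Algebra.EssFiniteType k L]
  [Algebra.EssFiniteType k K] {n : ℕ}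

/-- **The Kodaira dimension of the image.** -/
theorem kod_down (hn : Algebra.trdeg k L = n) {ι : Type} [Fintype ι] [DecidableEq ι]
    (a : Module.Basis ι L M) {m h : ℕ} {δ : Place k L → ℚ}
    {Ω : (Fin n → Derivation k K K) → K} (hΩ : IsPluri m Ω) {D0 : Fin n → Derivation k K K}
    (hD0 : Ω D0 ≠ 0) {g : Fin h → K} (hg : AlgebraicIndependent k g)
    (hord : ∀ (Q : Place k K) (P' : Place k M) (P : Place k L) (e₁ e₂ : ℕ), Over Q P' e₁ →
      Over P' P e₂ → Divisorial n P → ∀ i,
      OrdAt Q (m * ((e₁ : ℚ) - 1) - m * (e₁ * e₂) * δ P)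
        (fun D => algebraMap M K (a i) ^ (2 * m) * Ω D) ∧
      ∀ j, OrdAt Q (m * ((e₁ : ℚ) - 1) - m * (e₁ * e₂) * δ P)
        (fun D => algebraMap M K (a i) ^ (2 * m) * (g j * Ω D))) :
    ∃ Φ : Fin (h + 1) → (Fin n → Derivation k L L) → L,
      (∀ j, IsPluri (m * Module.finrank L K) (Φ j)) ∧
      (∀ P : Place k L, Divisorial n P → ∀ j,
        OrdAt P (-((m * Module.finrank L K : ℕ) * δ P)) (Φ j)) ∧
      ∃ D, Φ 0 D ≠ 0 ∧ AlgebraicIndependent k fun j : Fin h => Φ j.succ D / Φ 0 D := by
  classical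
  have : Infinite k := inferInstance
  obtain ⟨y, E, hy, hE⟩ := exists_crd (k := k) hn
  have hyK : IsTranscendenceBasis k (fun j => algebraMap L K (y j)) := hy.algebraMap_comp
  have hEK := lift_dual (L := K) hE (E' := fun i => lft (K := K) hn (E i))
    fun i f => lft_apply hn (E i) f
  have hv0 := ne_frame hΩ hD0 hyK hEK
  obtain ⟨ι', y', hind⟩ := norm_indep (L := L) g hg
  let W : Fin (h + 1) → (Fin n → Derivation k K K) → K :=
    Fin.cases Ω fun j D => (g (ι' j) - algebraMap k K (y' j)) * Ω D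
  have hW : ∀ j, IsPluri m (W j) := by
    intro j
    refine Fin.cases hΩ (fun j => ?_) j
    exact pluri_smul hΩ _
  obtain ⟨c, hc⟩ : ∃ c : L, c = Algebra.discr L a ^ (m * Module.finrank M K) := ⟨_, rfl⟩
  have hL0 : CharZero L := charZero_of_injective_algebraMap (algebraMap k L).injective
  have hc0 : c ≠ 0 := by
    rw [hc]
    exact pow_ne_zero _ (Algebra.discr_not_zero_of_basis L a)
  have hN : ∀ x : K, x ≠ 0 → Algebra.norm L x ≠ 0 := fun x hx => by
    rw [Ne, Algebra.norm_eq_zero_iff]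
    exact hx
  refine ⟨fun j => nform hn c (W j), fun j => nform_pluri hn c (hW j), fun P hP j => ?_, E,
    ?_, ?_⟩
  · have h1 : OrdAt P (-(m * Module.finrank L K) * δ P) (nform hn c (W j)) := by
      rw [hc]
      refine down_order hn a (hW j) hP fun Q P' e₁ e₂ hQ hP' i => ?_
      obtain ⟨h2, h3⟩ := hord Q P' P e₁ e₂ hQ hP' hP i
      refine Fin.cases h2 (fun j => ?_) j
      intro G hG
      have h4 := h3 (ι' j) G hG
      have h5 := (h2 G hG).smul (-(y' j))
      have h6 := h4.add h5
      have h7 : algebraMap M K (a i) ^ (2 * m) * (g (ι' j) * Ω G) +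
          algebraMap k K (-(y' j)) * (algebraMap M K (a i) ^ (2 * m) * Ω G) =
          algebraMap M K (a i) ^ (2 * m) * ((g (ι' j) - algebraMap k K (y' j)) * Ω G) := by
        rw [map_neg]
        ring
      rw [h7] at h6
      exact h6
    have h8 : (-(m * Module.finrank L K) * δ P : ℚ) = -((m * Module.finrank L K : ℕ) * δ P) := by
      push_cast
      ring
    rwa [h8] at h1
  · exact mul_ne_zero hc0 (hN _ hv0)
  · have h1 : (fun j : Fin h => nform hn c (W j.succ) E / nform hn c (W 0) E) =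
        fun j => Algebra.norm L (g (ι' j) - algebraMap k K (y' j)) := by
      funext j
      change c * Algebra.norm L ((g (ι' j) - algebraMap k K (y' j)) *
        Ω fun i => lft (K := K) hn (E i)) / (c * Algebra.norm L (Ω fun i => lft (K := K) hn (E i))) = _
      rw [map_mul, mul_div_mul_left _ _ hc0, mul_div_cancel_right₀ _ (hN _ hv0)]
    rw [h1]
    exact hind

end

end Pool.Agent.L0h17.DN
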