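import Pool.Agent.Y692.NT.Tr
import Pool.Agent.Y172.Cov3

/-!
The local theory at a place: norms and discriminants.
-/

set_option autoImplicit false
set_option linter.overlappingInstances false
set_option linter.unusedSectionVars false

open FF Polynomial Pool.Agent.W602.GT Pool.Agent.W603.LV Pool.Agent.W619.PQ Pool.Agent.Y172

namespace Pool.Agent.L0h17.DN

section

variable {k K : Type} [Field k] [Field K] [Algebra k K]

/-- an element with given orders at finitely many places -/
theorem exists_ords (S : Finset (Place k K)) (n : Place k K → ℤ) :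
    ∃ c : K, c ≠ 0 ∧ ∀ P ∈ S, P.ord c = n P := by
  classical
  have h0 : ∀ P : Place k K, ∃ a : K, a ≠ 0 ∧ P.ord a = n P := by
    intro P
    obtain ⟨t, ht0, ht⟩ := P.surj
    exact ⟨t ^ n P, zpow_ne_zero _ ht0, by rw [P.ord_zpow, ht, mul_one]⟩
  choose a ha0 ha using h0
  obtain ⟨N, hN⟩ : ∃ N : ℤ, ∀ P ∈ S, n P < N := by
    refine ⟨1 + ∑ P ∈ S, |n P|, fun P hP => ?_⟩
    have h1 := Finset.single_le_sum (f := fun P : Place k K => |n P|)
      (fun _ _ => abs_nonneg _) hP
    have h2 := le_abs_self (n P)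
    have h3 : |n P| ≤ ∑ P ∈ S, |n P| := h1
    omega
  choose b hb1 hb2 using fun P : Place k K => approx_one (S.erase P) P (Finset.notMem_erase P S)
    (a P) N
  rcases S.eq_empty_or_nonempty with hS | ⟨P0, hP0⟩
  · exact ⟨1, one_ne_zero, fun P hP => by rw [hS] at hP; exact absurd hP (Finset.notMem_empty _)⟩
  have hcl : ∀ P ∈ S, Ge P N ((∑ Q ∈ S, b Q) - a P) := by
    intro P hP
    rw [← Finset.add_sum_erase _ _ hP]
    have h1 : b P + ∑ Q ∈ S.erase P, b Q - a P = (b P - a P) + ∑ Q ∈ S.erase P, b Q := by ring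
    rw [h1]
    refine (hb1 P).add (Ge.sum _ _ fun Q hQ => ?_)
    rw [Finset.mem_erase] at hQ
    exact hb2 Q P (Finset.mem_erase.2 ⟨hQ.1.symm, hP⟩)
  have hord : ∀ P ∈ S, (∑ Q ∈ S, b Q) ≠ 0 ∧ P.ord (∑ Q ∈ S, b Q) = n P := by
    intro P hP
    rcases hcl P hP with h | h
    · rw [sub_eq_zero] at h
      rw [h]
      exact ⟨ha0 P, ha P⟩
    · by_cases hz : (∑ Q ∈ S, b Q) - a P = 0
      · rw [sub_eq_zero] at hz
        rw [hz]
        exact ⟨ha0 P, ha P⟩
      have h1 := P.ord_add_eq (ha0 P) hz (by rw [ha]; exact (hN P hP).trans_le h)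
      rw [add_sub_cancel] at h1
      exact ⟨h1.1, h1.2.trans (ha P)⟩
  exact ⟨_, (hord P0 hP0).1, fun P hP => (hord P hP).2⟩

end

section

variable {k K F : Type} [Field k] [CharZero k] [Field K] [Field F] [Algebra k K] [Algebra k F]
  [Algebra K F] [IsScalarTower k K F] [FiniteDimensional K F]

/-- the norm of an element which is regular at all the places over `q` is regular at `q` -/
theorem norm_reg (q : Place k K) (x : F) (hx : ∀ (w : Place k F) (e : ℕ), Over w q e → Ge w 0 x) :
    Ge q 0 (Algebra.norm K x) := by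
  let iA : Algebra q.O F := algO q
  let ik : Algebra k q.O := algk q
  have : IsDiscreteValuationRing q.O := q.isDVR
  have : CharZero K := charZero_of_injective_algebraMap (algebraMap k K).injective
  have : IsScalarTower q.O K F := IsScalarTower.of_algebraMap_eq fun _ => rfl
  have h1 : IsIntegral q.O x := isIntegral_of_reg q x hx
  have h2 : IsIntegral q.O (Algebra.norm K x) := Algebra.isIntegral_norm K h1
  obtain ⟨y, hy⟩ := IsIntegrallyClosed.isIntegral_iff.1 h2
  rw [← hy]
  exact y.2

theorem norm_ge (q : Place k K) (x : F) (c : ℤ)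
    (hx : ∀ (w : Place k F) (e : ℕ), Over w q e → Ge w (e * c) x) :
    Ge q (Module.finrank K F * c) (Algebra.norm K x) := by
  obtain ⟨t, ht0, ht⟩ := q.surj
  have htF : algebraMap K F t ≠ 0 := by rwa [Ne, map_eq_zero]
  have h1 := norm_reg q (algebraMap K F (t ^ (-c)) * x) fun w e h => by
    have h2 : Ge w (-(e * c)) (algebraMap K F (t ^ (-c))) := by
      right
      rw [h.2, q.ord_zpow, ht]
      apply le_of_eq
      ring
    have h3 := h2.mul (hx w e h)
    rwa [neg_add_cancel] at h3
  rw [map_mul, Algebra.norm_algebraMap] at h1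
  rcases h1 with h1 | h1
  · left
    exact (mul_eq_zero.1 h1).resolve_left (pow_ne_zero _ (zpow_ne_zero _ ht0))
  · by_cases h0 : Algebra.norm K x = 0
    · exact Or.inl h0
    right
    rw [q.ord_mul (pow_ne_zero _ (zpow_ne_zero _ ht0)) h0, q.ord_pow, q.ord_zpow, ht] at h1
    have h4 : ((Module.finrank K F : ℕ) : ℤ) * (-c * 1) = -(Module.finrank K F * c) := by ring
    rw [h4] at h1
    omega

/-- the discriminant of `u` times the norm of `c` is a determinant of traces -/
theorem det_trace {ι : Type} [Fintype ι] [DecidableEq ι] (u : Module.Basis ι K F) (c : F) :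
    (Matrix.of fun i j => Algebra.trace K F (c * (u i * u j))).det =
      Algebra.discr K u * Algebra.norm K c := by
  have h1 : (Matrix.of fun i j => Algebra.trace K F (c * (u i * u j))) =
      Algebra.traceMatrix K u * Algebra.leftMulMatrix u c := by
    ext i j
    rw [Matrix.of_apply, Matrix.mul_apply]
    have h2 : c * u j = ∑ l, (Algebra.leftMulMatrix u c) l j • u l := by
      conv_lhs => rw [← u.sum_repr (c * u j)]
      refine Finset.sum_congr rfl fun l _ => ?_
      rw [Algebra.leftMulMatrix_eq_repr_mul]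
    have h3 : c * (u i * u j) = ∑ l, (Algebra.leftMulMatrix u c) l j • (u i * u l) := by
      have h4 : c * (u i * u j) = u i * (c * u j) := by ring
      rw [h4, h2, Finset.mul_sum]
      refine Finset.sum_congr rfl fun l _ => ?_
      rw [mul_smul_comm]
    rw [h3, map_sum]
    refine Finset.sum_congr rfl fun l _ => ?_
    rw [map_smul, smul_eq_mul, mul_comm]
    rfl
  rw [h1, Matrix.det_mul, Algebra.norm_eq_matrix_det u]
  rfl

/-- **The local estimate.** -/
theorem loc_disc0 {ι : Type} [Fintype ι] [DecidableEq ι] (q : Place k K) (a : Module.Basis ι K F)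
    (M : ℕ) (h : F) (hh : ∀ (w : Place k F) (e : ℕ), Over w q e → ∀ i,
      Ge w (M * (1 - e)) (a i ^ (2 * M) * h)) :
    Ge q 0 (Algebra.discr K a ^ M * Algebra.norm K h) := by
  classical
  by_cases hh0 : h = 0
  · left
    rw [hh0, Algebra.norm_zero, mul_zero]
  have : CharZero K := charZero_of_injective_algebraMap (algebraMap k K).injective
  obtain ⟨S, T, hS, -, -⟩ := exists_places_over (K' := F) q
  have hpos : 0 < Module.finrank K F := Module.finrank_pos
  have hcard := Module.finrank_eq_card_basis a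
  have hne : Nonempty ι := by
    rw [hcard] at hpos
    exact Fintype.card_pos_iff.1 hpos
  -- the minimal orders
  have hmin : ∀ w : Place k F, ∃ i0 : ι, ∀ i, w.ord (a i0) ≤ w.ord (a i) := fun w =>
    Finite.exists_min fun i => w.ord (a i)
  choose i0 hi0 using hmin
  have ha0 : ∀ i, a i ≠ 0 := fun i => a.ne_zero i
  obtain ⟨a0, ha00, ha0S⟩ := exists_ords S fun w => w.ord (a (i0 w))
  choose! ε hε using fun (w : Place k F) (hw : ∃ e, Over w q e) => hw
  obtain ⟨c, hc0, hcS⟩ := exists_ords S fun w => 1 - (ε w : ℤ)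
  have hc : ∀ (w : Place k F) (e : ℕ), Over w q e → w.ord c = 1 - e := by
    intro w e hw
    rw [hcS w (hS w e hw), (Pool.Agent.Y172.over_unique' hw (hε w ⟨e, hw⟩)).2]
  -- the new basis
  have hu0 : a0⁻¹ ≠ 0 := inv_ne_zero ha00
  let u : Module.Basis ι K F := a.map (LinearEquiv.smulOfNeZero F F a0⁻¹ hu0 |>.restrictScalars K)
  have hu : ∀ i, u i = a0⁻¹ * a i := fun i => rfl
  have hau : (a : ι → F) = fun i => a0 * u i := by
    funext i
    rw [hu]
    field_simp
  have hreg : ∀ (w : Place k F) (e : ℕ), Over w q e → ∀ i, Ge w 0 (u i) := by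
    intro w e hw i
    right
    rw [hu, w.ord_mul hu0 (ha0 i), w.ord_inv, ha0S w (hS w e hw)]
    have := hi0 w i
    omega
  -- the discriminants
  have hdisc : Algebra.discr K a = Algebra.norm K a0 ^ 2 * Algebra.discr K u := by
    have h1 := Algebra.discr_of_matrix_vecMul (A := K) (b := (u : ι → F))
      (P := (Algebra.leftMulMatrix u a0))
    have h2 : (fun j => ∑ i, (Algebra.leftMulMatrix u a0) i j • u i) = (a : ι → F) := by
      funext j
      have h4 : a j = a0 * u j := congrFun hau j
      rw [h4]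
      conv_rhs => rw [← u.sum_repr (a0 * u j)]
      refine Finset.sum_congr rfl fun l _ => ?_
      rw [Algebra.leftMulMatrix_eq_repr_mul]
    have h3 : Matrix.vecMul (u : ι → F) ((Algebra.leftMulMatrix u a0).map (algebraMap K F)) =
        (a : ι → F) := by
      rw [← h2]
      funext j
      rw [Matrix.vecMul, dotProduct]
      refine Finset.sum_congr rfl fun l _ => ?_
      rw [Matrix.map_apply, Algebra.smul_def, mul_comm]
    rw [h3] at h1
    rw [h1, Algebra.norm_eq_matrix_det u]
  -- the quotient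
  obtain ⟨g, hg⟩ : ∃ g : F, g = h * a0 ^ (2 * M) / c ^ M := ⟨_, rfl⟩
  have hgreg : ∀ (w : Place k F) (e : ℕ), Over w q e → Ge w 0 g := by
    intro w e hw
    have h1 := (hh w e hw (i0 w)).resolve_left (mul_ne_zero (pow_ne_zero _ (ha0 _)) hh0)
    rw [w.ord_mul (pow_ne_zero _ (ha0 _)) hh0, w.ord_pow] at h1
    right
    rw [hg, w.ord_div (mul_ne_zero hh0 (pow_ne_zero _ ha00)) (pow_ne_zero _ hc0),
      w.ord_mul hh0 (pow_ne_zero _ ha00), w.ord_pow, w.ord_pow, ha0S w (hS w e hw), hc w e hw]
    linarith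
  have hheq : h = g * c ^ M * (a0 ^ (2 * M))⁻¹ := by
    rw [hg]
    field_simp
  have hN0 : Algebra.norm K a0 ≠ 0 := by
    rw [Ne, Algebra.norm_eq_zero_iff]
    exact ha00
  have hfin : Algebra.discr K a ^ M * Algebra.norm K h =
      (Algebra.discr K u * Algebra.norm K c) ^ M * Algebra.norm K g := by
    have h1 : Algebra.norm K ((a0 ^ (2 * M))⁻¹) = (Algebra.norm K a0 ^ (2 * M))⁻¹ := by
      have h2 : a0 ^ (2 * M) ≠ 0 := pow_ne_zero _ ha00
      have h3 : Algebra.norm K ((a0 ^ (2 * M))⁻¹) * Algebra.norm K a0 ^ (2 * M) = 1 := by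
        rw [← map_pow, ← map_mul, inv_mul_cancel₀ h2, map_one]
      exact eq_inv_of_mul_eq_one_left h3
    rw [hdisc, hheq, map_mul, map_mul, h1, map_pow, mul_pow, ← pow_mul]
    field_simp
    ring
  rw [hfin]
  have hdet : Ge q 0 (Algebra.discr K u * Algebra.norm K c) := by
    rw [← det_trace u c]
    refine Pool.Agent.W619.PQ.ge_det q _ fun i j => ?_
    refine Pool.Agent.Y692.NT.trace_reg q _ fun w e hw => ?_
    have h1 : Ge w (1 - e) c := Or.inr (hc w e hw).ge
    have h2 := h1.mul ((hreg w e hw i).mul (hreg w e hw j))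
    rwa [add_zero, add_zero] at h2
  have h1 := (hdet.pow M).mul (norm_reg q g hgreg)
  rwa [mul_zero, add_zero] at h1

/-- the local estimate with poles -/
theorem loc_disc {ι : Type} [Fintype ι] [DecidableEq ι] (q : Place k K) (a : Module.Basis ι K F)
    (M : ℕ) (z : ℤ) (h : F) (hh : ∀ (w : Place k F) (e : ℕ), Over w q e → ∀ i,
      Ge w (M * (1 - e) - e * z) (a i ^ (2 * M) * h)) :
    Ge q (-(Module.finrank K F * z)) (Algebra.discr K a ^ M * Algebra.norm K h) := by
  obtain ⟨t, ht0, ht⟩ := q.surj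
  have h1 := loc_disc0 q a M (algebraMap K F (t ^ z) * h) fun w e hw i => by
    have h2 : Ge w (e * z) (algebraMap K F (t ^ z)) := by
      right
      rw [hw.2, q.ord_zpow, ht, mul_one]
    have h3 := h2.mul (hh w e hw i)
    have h4 : a i ^ (2 * M) * (algebraMap K F (t ^ z) * h) =
        algebraMap K F (t ^ z) * (a i ^ (2 * M) * h) := by ring
    rw [h4]
    refine h3.mono (le_of_eq ?_)
    ring
  rw [map_mul, Algebra.norm_algebraMap] at h1
  have h5 : Algebra.discr K a ^ M * ((t ^ z) ^ Module.finrank K F * Algebra.norm K h) =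
      (t ^ z) ^ Module.finrank K F * (Algebra.discr K a ^ M * Algebra.norm K h) := by ring
  rw [h5] at h1
  have htz : (t ^ z) ^ Module.finrank K F ≠ 0 := pow_ne_zero _ (zpow_ne_zero _ ht0)
  rcases h1 with h1 | h1
  · exact Or.inl ((mul_eq_zero.1 h1).resolve_left htz)
  by_cases h0 : Algebra.discr K a ^ M * Algebra.norm K h = 0
  · exact Or.inl h0
  right
  rw [q.ord_mul htz h0, q.ord_pow, q.ord_zpow, ht, mul_one] at h1
  omega

end

end Pool.Agent.L0h17.DN
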