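import Pool.Agent.L0h17.DN.Kod
import Pool.Agent.TH466.QG.Low
import Pool.Agent.Helper386.D5V.Helper399_FF4a

/-!
Abundance for the images of varieties: assembly.
-/

set_option autoImplicit false
set_option linter.overlappingInstances false
set_option linter.unusedSectionVars false

open FF Polynomial Pool.Agent.W602.GT Pool.Agent.W603.LV Pool.Agent.W619.PQ Pool.Agent.Y172
open Pool.Agent.W619.TW (IsPairSec PairNumLe PairKodGe HasIndep)

namespace Pool.Agent.L0h17.DN

section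

variable {k L K : Type} [Field k] [CharZero k] [Field L] [Field K] [Algebra k L] [Algebra k K]
  [Algebra L K] [IsScalarTower k L K] [FiniteDimensional L K] [Algebra.EssFiniteType k K]
  {n : ℕ}

/-- the orders of a product with an element of order zero -/
theorem ordAt_unit {Q : Place k K} {c : ℚ} {W : (Fin n → Derivation k K K) → K}
    (h : OrdAt Q c W) {u : K} (hu : Q.ord u = 0) : OrdAt Q c (fun D => u * W D) := by
  intro G hG
  have h1 : GeQ Q ((0 : ℤ) : ℚ) u := Or.inr (by rw [hu])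
  have h2 := h1.mul (h G hG)
  rwa [Int.cast_zero, zero_add] at h2

/-- **The main construction.** -/
theorem main_aux (hn : Algebra.trdeg k L = n) (E : IntermediateField k K) {δ : Place k L → ℚ}
    {m h : ℕ} {Ω : (Fin n → Derivation k K K) → K} (hΩ : IsPluri m Ω)
    {D0 : Fin n → Derivation k K K} (hD0 : Ω D0 ≠ 0) {g : Fin h → E}
    (hg : AlgebraicIndependent k g) {ι : Type} [Fintype ι] (a : ι → E)
    (ha : (IntermediateField.adjoin L (E : Set K) : Set K) ⊆
      Submodule.span L (Set.range fun i => (a i : K)))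
    (hhor : ∀ Q : Place k K, Divisorial n Q → (∀ x : E, x ≠ 0 → Q.ord (x : K) = 0) →
      ∀ (P : Place k L) (e : ℕ), Over Q P e → OrdAt Q (m * ((e : ℚ) - 1) - m * e * δ P) Ω)
    (hvert : ∀ Q : Place k K, Divisorial n Q → ∀ (p : Place k E) (ε : ℕ), Over Q p ε →
      ∀ (P : Place k L) (e : ℕ), Over Q P e → ∀ i,
      OrdAt Q (m * ((ε : ℚ) - 1) - m * e * δ P) (fun D => (a i : K) ^ (2 * m) * Ω D) ∧
      ∀ j, OrdAt Q (m * ((ε : ℚ) - 1) - m * e * δ P)
        (fun D => (a i : K) ^ (2 * m) * ((g j : K) * Ω D))) :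
    ∃ Φ : Fin (h + 1) → (Fin n → Derivation k L L) → L,
      (∀ j, IsPluri (m * Module.finrank L K) (Φ j)) ∧
      (∀ P : Place k L, Divisorial n P → ∀ j,
        OrdAt P (-((m * Module.finrank L K : ℕ) * δ P)) (Φ j)) ∧
      ∃ D, Φ 0 D ≠ 0 ∧ AlgebraicIndependent k fun j : Fin h => Φ j.succ D / Φ 0 D := by
  classical
  have hessL : Algebra.EssFiniteType k L := Pool.Agent.TH466.QG.ess_below (K := K)
  have hgK : AlgebraicIndependent k (fun j => (g j : K)) := hg.map' (f := E.val) E.val.injective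
  obtain ⟨M, hM⟩ : ∃ M : IntermediateField L K, M = IntermediateField.adjoin L (E : Set K) :=
    ⟨_, rfl⟩
  have hEM : ∀ x : E, (x : K) ∈ M := fun x => by
    rw [hM]
    exact IntermediateField.subset_adjoin _ _ x.2
  -- the basis
  let aM : ι → M := fun i => ⟨(a i : K), hEM (a i)⟩
  have hspan : Submodule.span L (Set.range aM) = ⊤ := by
    rw [eq_top_iff]
    rintro x -
    have h1 : (x : K) ∈ Submodule.span L (Set.range fun i => (a i : K)) := by
      have h2 : (x : K) ∈ IntermediateField.adjoin L (E : Set K) := hM ▸ x.2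
      exact ha h2
    have h2 : (Set.range fun i => (a i : K)) = (M.val.toLinearMap : M →ₗ[L] K) '' Set.range aM := by
      rw [← Set.range_comp]
      rfl
    rw [h2, Submodule.span_image] at h1
    obtain ⟨z, hz, hzx⟩ := h1
    have h3 : z = x := Subtype.ext hzx
    exact h3 ▸ hz
  obtain ⟨κ, b, hb, hbb⟩ : ∃ (κ : Type) (b : Module.Basis κ L M), (∀ i, ∃ j, b i = aM j) ∧
      Finite κ := by
    obtain ⟨s, hs, hs2, hs3⟩ := exists_linearIndependent L (Set.range aM)
    rw [hspan] at hs2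
    refine ⟨s, Module.Basis.mk hs3 ?_, fun i => ?_, (Set.finite_range aM).subset hs⟩
    · rw [Subtype.range_coe_subtype, Set.ofPred_mem_eq, hs2]
    · obtain ⟨j, hj⟩ := hs i.2
      exact ⟨j, by rw [Module.Basis.mk_apply]; exact hj.symm⟩
  have := Fintype.ofFinite κ
  have hst : IsScalarTower k M K := IsScalarTower.of_algebraMap_eq fun c => rfl
  refine kod_down hn b (δ := δ) hΩ hD0 hgK fun Q P' P e₁ e₂ hQ hP' hP i => ?_
  obtain ⟨i', hi'⟩ := hb i
  have hbi : algebraMap M K (b i) = (a i' : K) := by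
    rw [hi']
    rfl
  have hai0 : (a i' : K) ≠ 0 := by
    rw [← hbi, Ne, map_eq_zero]
    exact b.ne_zero i
  rw [hbi]
  have hover : Over Q P (e₁ * e₂) := by
    refine ⟨Nat.mul_pos hQ.1 hP'.1, fun f => ?_⟩
    rw [IsScalarTower.algebraMap_apply L M K, hQ.2, hP'.2]
    push_cast
    ring
  have hQd : Divisorial n Q := divisorial_up hover hP
  have he1 : (1 : ℚ) ≤ e₁ := by exact_mod_cast hQ.1
  have he2 : (1 : ℚ) ≤ e₂ := by exact_mod_cast hP'.1
  have hm0 : (0 : ℚ) ≤ m := by positivity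
  by_cases hh : ∀ x : E, x ≠ 0 → Q.ord (x : K) = 0
  · -- divisors which dominate the base
    have h1 : OrdAt Q (m * ((e₁ : ℚ) - 1) - m * (e₁ * e₂) * δ P) Ω := by
      intro G hG
      refine (hhor Q hQd hh P _ hover G hG).mono ?_
      push_cast
      have h3 : (m : ℚ) * e₁ ≤ m * (e₁ * e₂) := by
        apply mul_le_mul_of_nonneg_left _ hm0
        nlinarith
      linarith
    refine ⟨ordAt_unit h1 ?_, fun j => ?_⟩
    · rw [Q.ord_pow, hh (a i') (fun h0 => hai0 (by rw [h0]; rfl)), mul_zero]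
    · have h4 : (fun D => (a i' : K) ^ (2 * m) * ((g j : K) * Ω D)) =
          fun D => ((a i' : K) ^ (2 * m) * (g j : K)) * Ω D := by
        funext D
        ring
      rw [h4]
      refine ordAt_unit h1 ?_
      have h5 : g j ≠ 0 := hg.ne_zero j
      have h6 : (g j : K) ≠ 0 := fun h0 => h5 (Subtype.ext h0)
      rw [Q.ord_mul (pow_ne_zero _ hai0) h6, Q.ord_pow,
        hh (a i') (fun h0 => hai0 (by rw [h0]; rfl)), hh _ h5, mul_zero, add_zero]
  · -- the other divisors
    push Not at hh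
    obtain ⟨x, hx0, hx⟩ := hh
    obtain ⟨ε, p, hp⟩ := exists_over (K := E) Q ⟨x, hx⟩
    have hle : (e₁ : ℚ) ≤ ε := by
      obtain ⟨t, ht0, ht⟩ := p.surj
      have h1 := hp.2 t
      rw [ht, mul_one] at h1
      have h2 := hQ.2 (⟨(t : K), hEM t⟩ : M)
      have h3 : algebraMap M K (⟨(t : K), hEM t⟩ : M) = algebraMap E K t := rfl
      rw [h3, h1] at h2
      have h4 : (e₁ : ℤ) ∣ ε := ⟨_, h2⟩
      have h5 : e₁ ∣ ε := by exact_mod_cast h4
      exact_mod_cast Nat.le_of_dvd hp.1 h5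
    have hc : (m : ℚ) * ((e₁ : ℚ) - 1) - m * (e₁ * e₂) * δ P ≤
        m * ((ε : ℚ) - 1) - m * ((e₁ * e₂ : ℕ) : ℚ) * δ P := by
      have h2 : (m : ℚ) * ((e₁ : ℚ) - 1) ≤ m * ((ε : ℚ) - 1) :=
        mul_le_mul_of_nonneg_left (by linarith) hm0
      push_cast
      linarith
    obtain ⟨h1, h2⟩ := hvert Q hQd p ε hp P _ hover i'
    exact ⟨fun G hG => (h1 G hG).mono hc, fun j G hG => (h2 j G hG).mono hc⟩

/-- **The main theorem.** -/
theorem main (hn : Algebra.trdeg k L = n) (E : IntermediateField k K) {δ : Place k L → ℚ}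
    {δ' : Place k K → ℚ}
    (hpull : ∀ (Q : Place k K) (P : Place k L) (e : ℕ), Over Q P e → Divisorial n Q →
      1 - δ' Q ≤ e * (1 - δ P))
    {m h : ℕ} (hm : 1 ≤ m) (hnum : PairNumLe k K n δ' h)
    {Ω : (Fin n → Derivation k K K) → K} (hΩ : IsPluri m Ω) {D0 : Fin n → Derivation k K K}
    (hD0 : Ω D0 ≠ 0) {g : Fin h → E} (hg : AlgebraicIndependent k g)
    (hsec : ∀ Q : Place k K, Divisorial n Q → OrdAt Q (-(m * δ' Q)) Ω ∧
      ∀ j, OrdAt Q (-(m * δ' Q)) (fun D => (g j : K) * Ω D))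
    {ι : Type} [Fintype ι] (a : ι → E)
    (ha : (IntermediateField.adjoin L (E : Set K) : Set K) ⊆
      Submodule.span L (Set.range fun i => (a i : K)))
    (hvert : ∀ Q : Place k K, Divisorial n Q → ∀ (p : Place k E) (ε : ℕ), Over Q p ε →
      ∀ (P : Place k L) (e : ℕ), Over Q P e → ∀ i,
      OrdAt Q (m * ((ε : ℚ) - 1) - m * e * δ P) (fun D => (a i : K) ^ (2 * m) * Ω D) ∧
      ∀ j, OrdAt Q (m * ((ε : ℚ) - 1) - m * e * δ P)
        (fun D => (a i : K) ^ (2 * m) * ((g j : K) * Ω D))) (hneg : ¬ PairNumNeg k L n δ) :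
    ∃ Φ : Fin (h + 1) → (Fin n → Derivation k L L) → L,
      (∀ j, IsPluri (m * Module.finrank L K) (Φ j)) ∧
      (∀ P : Place k L, Divisorial n P → ∀ j,
        OrdAt P (-((m * Module.finrank L K : ℕ) * δ P)) (Φ j)) ∧
      ∃ D, Φ 0 D ≠ 0 ∧ AlgebraicIndependent k fun j : Fin h => Φ j.succ D / Φ 0 D := by
  classical
  have hessL : Algebra.EssFiniteType k L := Pool.Agent.TH466.QG.ess_below (K := K)
  refine main_aux hn E hΩ hD0 hg a ha (fun Q hQ hh P e hQP => ?_) hvert
  let Ωf : Fin (h + 1) → (Fin n → Derivation k K K) → K := Fin.cases Ω fun j D => (g j : K) * Ω D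
  have hΩf1 : ∀ j, IsPluri m (Ωf j) := fun j => Fin.cases hΩ (fun j => pluri_smul hΩ _) j
  have hΩf2 : ∀ Q : Place k K, Divisorial n Q → ∀ j, OrdAt Q (-(m * δ' Q)) (Ωf j) :=
    fun Q hQ j => Fin.cases (hsec Q hQ).1 (fun j => (hsec Q hQ).2 j) j
  exact hor_bound (K := K) hn hpull hm hnum hΩf1 hΩf2 (D0 := D0) hD0 hQ (fun F hF => by
    have h3 : (fun j : Fin h => Ωf j.succ D0 / Ωf 0 D0) = fun j => (g j : K) := by
      funext j
      change (g j : K) * Ω D0 / Ω D0 = g j
      field_simp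
    rw [h3]
    have h4 : MvPolynomial.aeval (fun j => (g j : K)) F =
        ((MvPolynomial.aeval g F : E) : K) := by
      have h5 := MvPolynomial.aeval_algebraMap_apply (B := K) g F
      exact h5
    have h5 : MvPolynomial.aeval g F ≠ 0 := fun h0 =>
      hF ((injective_iff_map_eq_zero _).1 hg F h0)
    rw [h4]
    exact ⟨fun h0 => h5 (Subtype.ext h0), hh _ h5⟩) hneg hQP

end

end Pool.Agent.L0h17.DN
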