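import Pool.Agent.L0h17.DN.Down
import Pool.Agent.W619.TW.PDefs

/-!
Pull-backs of pluricanonical forms, and sections of pairs.
-/

set_option autoImplicit false
set_option linter.overlappingInstances false
set_option linter.unusedSectionVars false

open FF Polynomial Pool.Agent.W602.GT Pool.Agent.W603.LV Pool.Agent.W619.PQ Pool.Agent.Y172
open Pool.Agent.W619.TW (IsPairSec PairNumLe PairKodGe HasIndep)

namespace Pool.Agent.L0h17.DN

section

variable {k K : Type} [Field k] [CharZero k] [Field K] [Algebra k K] {n : ℕ}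

/-- a sum of elements with different orders is not zero -/
theorem sum_ne_zero_of_ord (P : Place k K) {ι : Type} (s : Finset ι) (f : ι → K)
    (hf : ∀ i ∈ s, f i ≠ 0) (hinj : ∀ i ∈ s, ∀ j ∈ s, P.ord (f i) = P.ord (f j) → i = j)
    (hs : s.Nonempty) : ∑ i ∈ s, f i ≠ 0 := by
  classical
  obtain ⟨i0, hi0, hmin⟩ := Finset.exists_min_image s (fun i => P.ord (f i)) hs
  rw [← Finset.add_sum_erase _ _ hi0]
  have h1 : Ge P (P.ord (f i0) + 1) (∑ i ∈ s.erase i0, f i) := by
    refine Ge.sum _ _ fun i hi => ?_
    obtain ⟨h2, h3⟩ := Finset.mem_erase.1 hi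
    right
    have h4 := hmin i h3
    have h5 : P.ord (f i0) ≠ P.ord (f i) := fun h => h2 (hinj i0 hi0 i h3 h).symm
    omega
  rcases h1 with h1 | h1
  · rw [h1, add_zero]
    exact hf i0 hi0
  · by_cases h0 : ∑ i ∈ s.erase i0, f i = 0
    · rw [h0, add_zero]
      exact hf i0 hi0
    · exact (P.ord_add_eq (hf i0 hi0) h0 (by omega)).1

/-- the ratio of two forms does not depend on the vector fields -/
theorem ratio_eq (hn : Algebra.trdeg k K = n) {m : ℕ} {W W' : (Fin n → Derivation k K K) → K}
    (hW : IsPluri m W) (hW' : IsPluri m W') {D : Fin n → Derivation k K K} (h0 : W D ≠ 0)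
    (G : Fin n → Derivation k K K) : W' G = W' D / W D * W G := by
  obtain ⟨y, E, hy, hE⟩ := exists_crd (k := k) hn
  have h1 := pluri_coord hy hE hW D
  have h2 := pluri_coord hy hE hW' D
  have h3 := pluri_coord hy hE hW G
  have h4 := pluri_coord hy hE hW' G
  have h5 : (Matrix.of fun i j => D i (y j)).det ^ m ≠ 0 := fun h => h0 (by rw [h1, h, zero_mul])
  have h6 : W E ≠ 0 := fun h => h0 (by rw [h1, h, mul_zero])
  rw [h1, h2, h3, h4]
  field_simp

/-- a nonzero form is not zero on a local frame -/
theorem ne_frame {m : ℕ} {W : (Fin n → Derivation k K K) → K} (hW : IsPluri m W)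
    {D : Fin n → Derivation k K K} (h0 : W D ≠ 0) {y : Fin n → K}
    {E : Fin n → Derivation k K K} (hy : IsTranscendenceBasis k y)
    (hE : ∀ i j, E i (y j) = if i = j then 1 else 0) : W E ≠ 0 := by
  intro h
  apply h0
  rw [pluri_coord hy hE hW D, h, mul_zero]

theorem pluri_ppow {m : ℕ} {W : (Fin n → Derivation k K K) → K} (hW : IsPluri m W) (r : ℕ) :
    IsPluri (r * m) (fun D => W D ^ r) := by
  intro A D
  change W _ ^ r = _
  rw [hW, mul_pow, ← pow_mul, mul_comm m r]

theorem pluri_prod {ι : Type} (s : Finset ι) {m : ι → ℕ}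
    {W : ι → (Fin n → Derivation k K K) → K} (hW : ∀ i ∈ s, IsPluri (m i) (W i)) :
    IsPluri (∑ i ∈ s, m i) (fun D => ∏ i ∈ s, W i D) := by
  intro A D
  change ∏ i ∈ s, W i _ = _
  rw [← Finset.prod_pow_eq_pow_sum, ← Finset.prod_mul_distrib]
  exact Finset.prod_congr rfl fun i hi => hW i hi A D

theorem GeQ.prod {P : Place k K} {ι : Type} (s : Finset ι) {c : ι → ℚ} {f : ι → K}
    (h : ∀ i ∈ s, GeQ P (c i) (f i)) : GeQ P (∑ i ∈ s, c i) (∏ i ∈ s, f i) := by
  classical
  induction s using Finset.induction_on with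
  | empty =>
    right
    rw [Finset.prod_empty, P.ord_one]
    simp
  | insert a s ha ih =>
    rw [Finset.prod_insert ha, Finset.sum_insert ha]
    exact (h a (Finset.mem_insert_self _ _)).mul (ih fun i hi => h i (Finset.mem_insert_of_mem hi))

end

section

variable {k L K : Type} [Field k] [CharZero k] [Field L] [Field K] [Algebra k L] [Algebra k K]
  [Algebra L K] [IsScalarTower k L K] [FiniteDimensional L K] {n : ℕ}

/-- the pull-back of a form, in coordinates -/
noncomputable def pb (m : ℕ) (y : Fin n → L) (E : Fin n → Derivation k L L)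
    (σ : (Fin n → Derivation k L L) → L) (D : Fin n → Derivation k K K) : K :=
  (Matrix.of fun i j => D i (algebraMap L K (y j))).det ^ m * algebraMap L K (σ E)

theorem pb_pluri (m : ℕ) (y : Fin n → L) (E : Fin n → Derivation k L L)
    (σ : (Fin n → Derivation k L L) → L) : IsPluri m (pb (K := K) m y E σ) := by
  intro A D
  have e1 : (Matrix.of fun a b => (∑ j, A a j • D j : Derivation k K K) (algebraMap L K (y b))) =
      A * Matrix.of fun a b => D a (algebraMap L K (y b)) := by
    ext a b
    rw [Matrix.of_apply, Matrix.mul_apply, sum_smul]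
    rfl
  unfold pb
  rw [e1, Matrix.det_mul, mul_pow, mul_assoc]

/-- the pull-back does not depend on the coordinates -/
theorem pb_eq {y y' : Fin n → L} {E E' : Fin n → Derivation k L L}
    (hy : IsTranscendenceBasis k y) (hE : ∀ i j, E i (y j) = if i = j then 1 else 0)
    (hy' : IsTranscendenceBasis k y') (hE' : ∀ i j, E' i (y' j) = if i = j then 1 else 0)
    (hn : Algebra.trdeg k L = n) {m : ℕ} {σ : (Fin n → Derivation k L L) → L} (hσ : IsPluri m σ)
    (D : Fin n → Derivation k K K) : pb m y E σ D = pb m y' E' σ D := by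
  classical
  have hyK : IsTranscendenceBasis k (fun j => algebraMap L K (y j)) := hy.algebraMap_comp
  have hEK := lift_dual (L := K) hE (E' := fun i => lft (K := K) hn (E i))
    fun i f => lft_apply hn (E i) f
  have h1 := pluri_coord hyK hEK (pb_pluri (K := K) m y' E' σ) D
  rw [h1]
  unfold pb
  congr 1
  have h2 : (Matrix.of fun i j => lft (K := K) hn (E i) (algebraMap L K (y' j))) =
      (algebraMap L K).mapMatrix (Matrix.of fun i j => E i (y' j)) := by
    ext i j
    rw [Matrix.of_apply, RingHom.mapMatrix_apply, Matrix.map_apply, Matrix.of_apply, lft_apply]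
  rw [h2, ← RingHom.map_det, ← map_pow, ← map_mul, pluri_coord hy' hE' hσ E]

/-- the order of the pull-back -/
theorem pb_order {y : Fin n → L} {E : Fin n → Derivation k L L} (hy : IsTranscendenceBasis k y)
    (hE : ∀ i j, E i (y j) = if i = j then 1 else 0) (hn : Algebra.trdeg k L = n)
    [Algebra.EssFiniteType k L] {m : ℕ} {σ : (Fin n → Derivation k L L) → L} (hσ : IsPluri m σ)
    {P : Place k L} (hP : Divisorial n P) {Q : Place k K} {e : ℕ} (hQ : Over Q P e) {c : ℚ}
    (h : OrdAt P c σ) : OrdAt Q (m * ((e : ℚ) - 1) + e * c) (pb m y E σ) := by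
  obtain ⟨yP, EP, i0, hl⟩ := exists_loc hn hP
  intro G hG
  rw [pb_eq hy hE hl.bas hl.dual hn hσ]
  unfold pb
  by_cases h0 : σ EP = 0
  · left
    rw [h0, map_zero, mul_zero]
  have h1 := (h EP hl.pres).resolve_left h0
  have h2 := pull_reg hQ hl hG (m := m) (ω := σ) (b := P.ord (σ EP)) (Or.inr le_rfl)
  refine (geQ_int.2 h2).mono ?_
  push_cast
  have h3 : (0 : ℚ) ≤ e := by positivity
  have h4 := mul_le_mul_of_nonneg_left h1 h3
  linarith

/-- the value of the pull-back on lifted vector fields -/
theorem pb_lft {y : Fin n → L} {E : Fin n → Derivation k L L}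
    (hE : ∀ i j, E i (y j) = if i = j then 1 else 0) (hn : Algebra.trdeg k L = n) (m : ℕ)
    (σ : (Fin n → Derivation k L L) → L) :
    pb m y E σ (fun i => lft (K := K) hn (E i)) = algebraMap L K (σ E) := by
  classical
  unfold pb
  have h2 : (Matrix.of fun i j => lft (K := K) hn (E i) (algebraMap L K (y j))) = 1 := by
    ext i j
    rw [Matrix.of_apply, lft_apply, hE, Matrix.one_apply, apply_ite (algebraMap L K), map_one,
      map_zero]
  rw [h2, Matrix.det_one, one_pow, one_mul]

end

end Pool.Agent.L0h17.DN
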